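import Mathlib

/-!
A group into which every countable overgroup of a finitely generated subgroup embeds.
-/

set_option autoImplicit false
set_option linter.unusedSectionVars false

namespace Pool.Agent.H313EC

open Equiv

/-- A type with a group structure. -/
structure BG : Type 1 where
  /-- the elements -/
  T : Type
  /-- the group structure -/
  g : Group T

attribute [instance] BG.g

/-- `G` acts on `G × ℕ` by right translations. -/
def emb (G : Type) [Group G] : G →* Perm (G × ℕ) where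
  toFun g := Equiv.prodCongr (Equiv.mulRight g⁻¹) (Equiv.refl ℕ)
  map_one' := by
    ext x <;> simp
  map_mul' g h := by
    ext x <;> simp [mul_assoc]

theorem emb_apply {G : Type} [Group G] (g : G) (x : G) (n : ℕ) : emb G g (x, n) = (x * g⁻¹, n) :=
  rfl

theorem emb_injective (G : Type) [Group G] : Function.Injective (emb G) := by
  rw [injective_iff_map_eq_one]
  intro g hg
  have h : emb G g (1, 0) = (1, 0) := by rw [hg]; rfl
  rw [emb_apply] at h
  have := congrArg Prod.fst h
  simpa using this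

theorem cosetR_bij {G : Type} [Group G] (K : Subgroup G) : Function.Bijective
    (fun p : (G ⧸ K) × K => (p.1.out : G) * (p.2 : G)) := by
  constructor
  · rintro ⟨q, k⟩ ⟨q', k'⟩ h
    have h2 : (q.out : G) * (k : G) = (q'.out : G) * (k' : G) := h
    have hq : q = q' := by
      have h3 : ((q.out * (k : G) : G) : G ⧸ K) = ((q'.out * (k' : G) : G) : G ⧸ K) := by
        rw [h2]
      rw [QuotientGroup.mk_mul_of_mem _ k.2, QuotientGroup.mk_mul_of_mem _ k'.2] at h3
      rwa [QuotientGroup.out_eq', QuotientGroup.out_eq'] at h3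
    subst hq
    have := mul_left_cancel h2
    rw [Subtype.ext this]
  · intro m
    obtain ⟨h, hh⟩ := QuotientGroup.mk_out_eq_mul K m
    refine ⟨((m : G ⧸ K), h⁻¹), ?_⟩
    show (((m : G ⧸ K)).out : G) * ((h⁻¹ : K) : G) = m
    rw [hh]
    simp

/-- `L` acts on `Q × ℕ × L` by right translations. -/
def act (Q L : Type) [Group L] : L →* Perm (Q × ℕ × L) where
  toFun g := Equiv.prodCongr (Equiv.refl Q)
    (Equiv.prodCongr (Equiv.refl ℕ) (Equiv.mulRight g⁻¹))
  map_one' := by
    ext x <;> simp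
  map_mul' g h := by
    ext x <;> simp [mul_assoc]

theorem act_apply {Q L : Type} [Group L] (l : L) (q : Q) (n : ℕ) (y : L) :
    act Q L l (q, n, y) = (q, n, y * l⁻¹) := rfl

theorem exists_extension {A : Type} [Group A] (K : Subgroup A) {L : Type} [Group L] [Countable L]
    (i : K →* L) (hi : Function.Injective i) :
    ∃ j : L →* Perm (A × ℕ), Function.Injective j ∧ ∀ k : K, j (i k) = emb A k := by
  classical
  set K' := i.range with hK'
  let e : K ≃* K' := MonoidHom.ofInjective hi
  have he : ∀ k, (e k : L) = i k := fun k => rfl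
  let eA : (A ⧸ K) × K ≃ A := Equiv.ofBijective _ (cosetR_bij K)
  let eL : (L ⧸ K') × K' ≃ L := Equiv.ofBijective _ (cosetR_bij K')
  have hcQ : Countable (L ⧸ K') := Quotient.countable
  obtain ⟨c⟩ : Nonempty (ℕ ≃ ℕ × (L ⧸ K')) := nonempty_equiv_of_countable
  -- both sides as `(A / K) × ℕ × (L / K') × K`
  let Ψ : (A ⧸ K) × (ℕ × (L ⧸ K')) × K ≃ A × ℕ :=
    { toFun := fun p => (eA (p.1, p.2.2), c.symm p.2.1)
      invFun := fun x => ((eA.symm x.1).1, c x.2, (eA.symm x.1).2)
      left_inv := by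
        rintro ⟨q, m, k⟩
        simp
      right_inv := by
        rintro ⟨x, n⟩
        simp }
  let Φ : (A ⧸ K) × (ℕ × (L ⧸ K')) × K ≃ (A ⧸ K) × ℕ × L :=
    { toFun := fun p => (p.1, p.2.1.1, eL (p.2.1.2, e p.2.2))
      invFun := fun x => (x.1, (x.2.1, (eL.symm x.2.2).1), e.symm (eL.symm x.2.2).2)
      left_inv := by
        rintro ⟨q, ⟨n, l⟩, k⟩
        simp
      right_inv := by
        rintro ⟨x, n, y⟩
        simp }
  let Θ : (A ⧸ K) × ℕ × L ≃ A × ℕ := Φ.symm.trans Ψ
  have hΨ : ∀ q m (k0 k : K), Ψ (q, m, k0 * k⁻¹) = emb A k (Ψ (q, m, k0)) := by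
    intro q m k0 k
    show ((q.out : A) * ((k0 * k⁻¹ : K) : A), c.symm m) = ((q.out : A) * (k0 : A) * (k : A)⁻¹, c.symm m)
    rw [Subgroup.coe_mul, Subgroup.coe_inv, mul_assoc]
  have hΦ : ∀ q m (k0 k : K), Φ (q, m, k0 * k⁻¹) = act (A ⧸ K) L (i k) (Φ (q, m, k0)) := by
    intro q m k0 k
    show (q, m.1, (m.2.out : L) * ((e (k0 * k⁻¹) : K') : L)) =
      (q, m.1, (m.2.out : L) * ((e k0 : K') : L) * (i k)⁻¹)
    rw [he, he, map_mul, map_inv, mul_assoc]
  refine ⟨(Θ.permCongrHom : Perm _ ≃* Perm _).toMonoidHom.comp (act (A ⧸ K) L), ?_, ?_⟩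
  · refine Function.Injective.comp (g := (Θ.permCongrHom : Perm _ ≃* Perm _)) (MulEquiv.injective _) ?_
    rw [injective_iff_map_eq_one]
    intro l hl
    have h : act (A ⧸ K) L l (((1 : A) : A ⧸ K), 0, 1) = (((1 : A) : A ⧸ K), 0, 1) := by
      rw [hl]; rfl
    rw [act_apply] at h
    have := congrArg (fun p => p.2.2) h
    simpa using this
  · intro k
    ext1 z
    obtain ⟨⟨q, m, k0⟩, rfl⟩ := Ψ.surjective z
    rw [← hΨ]
    show Θ (act (A ⧸ K) L (i k) (Θ.symm (Ψ (q, m, k0)))) = _
    have h1 : Θ.symm (Ψ (q, m, k0)) = Φ (q, m, k0) := by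
      show Φ (Ψ.symm (Ψ (q, m, k0))) = _
      rw [Equiv.symm_apply_apply]
    rw [h1, ← hΦ]
    show Ψ (Φ.symm (Φ (q, m, k0 * k⁻¹))) = _
    rw [Equiv.symm_apply_apply]

/-- The stages. -/
def st : ℕ → BG
  | 0 => ⟨Perm (ℤ × Fin 3), inferInstance⟩
  | n + 1 => ⟨Perm ((st n).T × ℕ), inferInstance⟩

/-- The underlying types of the stages. -/
abbrev Lv (n : ℕ) : Type := (st n).T

/-- The embedding of a stage in the next one. -/
def nx (n : ℕ) : Lv n →* Lv (n + 1) := emb (Lv n)

theorem nx_injective (n : ℕ) : Function.Injective (nx n) := emb_injective _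

/-- The embeddings of the stages. -/
def fw (i j : ℕ) (h : i ≤ j) : Lv i →* Lv j :=
  Nat.leRecOn (C := fun j => Lv i →* Lv j) h (fun {k} f => (nx k).comp f) (MonoidHom.id _)

theorem fw_self (i : ℕ) (x : Lv i) : fw i i le_rfl x = x := by
  unfold fw
  rw [Nat.leRecOn_self]
  rfl

theorem fw_succ (i j : ℕ) (h : i ≤ j) (x : Lv i) :
    fw i (j + 1) (h.trans (Nat.le_succ j)) x = nx j (fw i j h x) := by
  unfold fw
  rw [Nat.leRecOn_succ h]
  rfl

theorem fw_fw (i j k : ℕ) (hij : i ≤ j) (hjk : j ≤ k) (x : Lv i) :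
    fw j k hjk (fw i j hij x) = fw i k (hij.trans hjk) x := by
  induction k, hjk using Nat.le_induction with
  | base => rw [fw_self]
  | succ k hjk ih => rw [fw_succ j k hjk, ih, fw_succ i k (hij.trans hjk)]

theorem fw_injective (i j : ℕ) (h : i ≤ j) : Function.Injective (fw i j h) := by
  induction j, h using Nat.le_induction with
  | base => intro x y hxy; rwa [fw_self, fw_self] at hxy
  | succ k hk ih =>
    intro x y hxy
    rw [fw_succ i k hk, fw_succ i k hk] at hxy
    exact ih (nx_injective _ hxy)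

instance : DirectedSystem Lv (fun i j h => fw i j h) where
  map_self := fun i x => fw_self i x
  map_map := fun _ _ _ hij hjk x => fw_fw _ _ _ hij hjk x

/-- The big group. -/
abbrev Big : Type := DirectLimit Lv fw

/-- The embedding of a stage in the big group. -/
def toBig (n : ℕ) : Lv n →* Big where
  toFun x := ⟦⟨n, x⟩⟧
  map_one' := (DirectLimit.one_def n).symm
  map_mul' x y := (DirectLimit.mul_def n x y).symm

theorem toBig_injective (n : ℕ) : Function.Injective (toBig n) :=
  DirectLimit.mk_injective _ fw_injective n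

theorem toBig_nx (n : ℕ) (x : Lv n) : toBig (n + 1) (nx n x) = toBig n x := by
  have h := DirectLimit.mk_apply (F := Lv) (f := fw) n (n + 1) x
    (Nat.le_succ n)
  have h2 : fw n (n + 1) (Nat.le_succ n) x = nx n x := by
    rw [fw_succ n n le_rfl, fw_self]
  rw [h2] at h
  exact h

theorem range_toBig_mono {n m : ℕ} (h : n ≤ m) : (toBig n).range ≤ (toBig m).range := by
  induction m, h using Nat.le_induction with
  | base => exact le_rfl
  | succ k hk ih =>
    refine ih.trans ?_
    rintro _ ⟨x, rfl⟩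
    exact ⟨nx k x, toBig_nx k x⟩

theorem exists_stage (A : Set Big) (hA : A.Finite) : ∃ n, A ⊆ (toBig n).range := by
  induction A, hA using Set.Finite.induction_on with
  | empty => exact ⟨0, Set.empty_subset _⟩
  | @insert a s ha hs ih =>
    obtain ⟨n, hn⟩ := ih
    obtain ⟨m, x, hx⟩ : ∃ m, ∃ x : Lv m, a = toBig m x := by
      obtain ⟨i, x, hx⟩ := DirectLimit.exists_eq_mk (F := Lv) fw a
      exact ⟨i, x, hx⟩
    refine ⟨max n m, ?_⟩
    intro b hb
    rcases hb with rfl | hb
    · exact range_toBig_mono (le_max_right n m) ⟨x, hx.symm⟩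
    · exact range_toBig_mono (le_max_left n m) (hn hb)

/-- Every countable overgroup of a finitely generated subgroup embeds over it. -/
theorem big_embed (A : Set Big) (hA : A.Finite) (L : Type) [Group L] [Countable L]
    (i : Subgroup.closure A →* L) (hi : Function.Injective i) :
    ∃ J : L →* Big, Function.Injective J ∧ ∀ k : Subgroup.closure A, J (i k) = k := by
  obtain ⟨n, hn⟩ := exists_stage A hA
  have hcl : Subgroup.closure A ≤ (toBig n).range := (Subgroup.closure_le _).2 hn
  let K : Subgroup (Lv n) := (Subgroup.closure A).comap (toBig n)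
  let r : K →* Subgroup.closure A := (toBig n).subgroupComap (Subgroup.closure A)
  have hr : Function.Injective r := by
    intro x y hxy
    have h1 : toBig n x = toBig n y := congrArg Subtype.val hxy
    exact Subtype.ext (toBig_injective n h1)
  obtain ⟨j, hj, hji⟩ := exists_extension K (i.comp r) (hi.comp hr)
  refine ⟨(toBig (n + 1)).comp j, (toBig_injective (n + 1)).comp hj, fun k => ?_⟩
  obtain ⟨x, hx⟩ := hcl k.2
  have hxK : x ∈ K := by
    show toBig n x ∈ Subgroup.closure A
    rw [hx]; exact k.2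
  have hk : r ⟨x, hxK⟩ = k := Subtype.ext hx
  show toBig (n + 1) (j (i k)) = k
  rw [← hk]
  have h3 := hji ⟨x, hxK⟩
  have h4 : j (i (r ⟨x, hxK⟩)) = nx n x := h3
  rw [h4, toBig_nx]
  rfl

section pattern

/-- The pattern of a pair of elements. -/
def pat {G : Type} [Group G] (a b : G) : Set ℕ :=
  {n | ¬ Commute a ((b ^ (n + 1))⁻¹ * a * b ^ (n + 1))}

theorem pat_map {G H : Type} [Group G] [Group H] (c : G →* H) (hc : Function.Injective c) (a b : G) :
    pat (c a) (c b) = pat a b := by
  ext n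
  show ¬ Commute (c a) ((c b ^ (n + 1))⁻¹ * c a * c b ^ (n + 1)) ↔
    ¬ Commute a ((b ^ (n + 1))⁻¹ * a * b ^ (n + 1))
  rw [← map_pow, ← map_inv, ← map_mul, ← map_mul]
  constructor
  · intro h h'
    exact h (h'.map c)
  · intro h h'
    have h2 := h'.eq
    rw [← map_mul, ← map_mul] at h2
    exact h (hc h2)

/-- The shift. -/
def shiftP : Perm (ℤ × Fin 3) := Equiv.prodCongr (Equiv.addRight 1) (Equiv.refl _)

theorem shiftP_pow (n : ℕ) (z : ℤ) (i : Fin 3) : (shiftP ^ n) (z, i) = (z + n, i) := by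
  induction n generalizing z with
  | zero => simp
  | succ n ih =>
    rw [pow_succ, Perm.mul_apply]
    have : shiftP (z, i) = (z + 1, i) := rfl
    rw [this, ih]
    push_cast
    congr 1
    ring

/-- Fibrewise permutations. -/
def fibP (f : ℤ → Perm (Fin 3)) : Perm (ℤ × Fin 3) := Equiv.prodShear (Equiv.refl ℤ) f

theorem fibP_apply (f : ℤ → Perm (Fin 3)) (z : ℤ) (i : Fin 3) : fibP f (z, i) = (z, f z i) := rfl

theorem conj_fib (f : ℤ → Perm (Fin 3)) (n : ℕ) :
    (shiftP ^ n)⁻¹ * fibP f * shiftP ^ n = fibP fun z => f (z + n) := by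
  rw [mul_assoc, inv_mul_eq_iff_eq_mul]
  ext1 x
  obtain ⟨z, i⟩ := x
  rw [Perm.mul_apply, Perm.mul_apply, shiftP_pow, fibP_apply, fibP_apply, shiftP_pow]

theorem commute_fib (f g : ℤ → Perm (Fin 3)) :
    Commute (fibP f) (fibP g) ↔ ∀ z, Commute (f z) (g z) := by
  constructor
  · intro h z
    ext1 i
    have h1 := congrArg (fun p => p (z, i)) h.eq
    exact congrArg Prod.snd h1
  · intro h
    show fibP f * fibP g = fibP g * fibP f
    ext1 x
    obtain ⟨z, i⟩ := x
    have h1 := congrArg (fun p => p i) (h z).eq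
    show (z, f z (g z i)) = (z, g z (f z i))
    have h2 : f z (g z i) = g z (f z i) := h1
    rw [h2]

theorem exists_pat (S : Set ℕ) : ∃ a b : Perm (ℤ × Fin 3), pat a b = S := by
  classical
  let f : ℤ → Perm (Fin 3) := fun z =>
    if z = 0 then swap 0 1 else if 0 < z ∧ (z - 1).toNat ∈ S then swap 1 2 else 1
  have f0 : f 0 = swap 0 1 := if_pos rfl
  have fneg : ∀ z : ℤ, z < 0 → f z = 1 := by
    intro z hz
    show (if z = 0 then swap 0 1 else if 0 < z ∧ (z - 1).toNat ∈ S then swap 1 2 else 1) = _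
    rw [if_neg hz.ne, if_neg (by rintro ⟨h, -⟩; omega)]
  have fpos : ∀ n : ℕ, f ((n : ℤ) + 1) = if n ∈ S then swap 1 2 else 1 := by
    intro n
    have h1 : ((n : ℤ) + 1) ≠ 0 := by omega
    have h2 : (0 : ℤ) < (n : ℤ) + 1 := by omega
    have h3 : ((n : ℤ) + 1 - 1).toNat = n := by omega
    show (if (n : ℤ) + 1 = 0 then swap 0 1 else
      if 0 < (n : ℤ) + 1 ∧ ((n : ℤ) + 1 - 1).toNat ∈ S then swap 1 2 else 1) = _
    rw [if_neg h1, h3]
    by_cases h : n ∈ S
    · rw [if_pos ⟨h2, h⟩, if_pos h]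
    · rw [if_neg (fun h' => h h'.2), if_neg h]
  refine ⟨fibP f, shiftP, ?_⟩
  ext n
  show ¬ Commute (fibP f) ((shiftP ^ (n + 1))⁻¹ * fibP f * shiftP ^ (n + 1)) ↔ n ∈ S
  rw [conj_fib, commute_fib]
  constructor
  · intro h
    by_contra hn
    apply h
    intro z
    rcases lt_trichotomy z 0 with hz | hz | hz
    · rw [fneg z hz]
      exact Commute.one_left _
    · subst hz
      have : f (0 + ((n + 1 : ℕ) : ℤ)) = 1 := by
        rw [zero_add]
        push_cast
        rw [fpos, if_neg hn]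
      rw [this]
      exact Commute.one_right _
    · obtain ⟨m, rfl⟩ : ∃ m : ℕ, z = (m : ℤ) + 1 := ⟨(z - 1).toNat, by omega⟩
      have e : (m : ℤ) + 1 + ((n + 1 : ℕ) : ℤ) = ((m + n + 1 : ℕ) : ℤ) + 1 := by push_cast; ring
      rw [e, fpos, fpos]
      split_ifs
      · exact Commute.refl _
      · exact Commute.one_right _
      · exact Commute.one_left _
      · exact Commute.one_left _
  · intro hn h
    have h1 := h 0
    have : f (0 + ((n + 1 : ℕ) : ℤ)) = swap 1 2 := by
      rw [zero_add]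
      push_cast
      rw [fpos, if_pos hn]
    rw [this, f0] at h1
    have h2 := congrArg (fun p => p 2) h1.eq
    revert h2
    show ¬ ((swap 0 1 * swap 1 2 : Perm (Fin 3)) 2 = (swap 1 2 * swap 0 1 : Perm (Fin 3)) 2)
    decide

end pattern

end Pool.Agent.H313EC
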