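import Mathlib
import Pool.Agent.H504R3.SDefs

/-!
Continuous logic of tracial von Neumann algebras: boundedness, continuity and approximation of
formulas by countably many formulas; the Tarski-Vaught test.
-/

set_option autoImplicit false
set_option linter.unusedSectionVars false

open Filter Topology

namespace Pool.Agent.H313EC

open Pool.Agent.H504R3.S

/-- A structure with a map `v` to a normed space (`v x = x ξ` for the trace vector `ξ`). -/
structure VD (M : Str) {H : Type} [NormedAddCommGroup H] [NormedSpace ℂ H]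
    (v : M.carrier → H) : Prop where
  nrm_nonneg : ∀ x, 0 ≤ M.nrm x
  nrm_one : M.nrm M.one ≤ 1
  nrm_add : ∀ x y, M.nrm (M.add x y) ≤ M.nrm x + M.nrm y
  nrm_mul : ∀ x y, M.nrm (M.mul x y) ≤ M.nrm x * M.nrm y
  nrm_adj : ∀ x, M.nrm (M.adj x) ≤ M.nrm x
  nrm_scal : ∀ c x, M.nrm (M.scal c x) ≤ ‖c‖ * M.nrm x
  v_le : ∀ x, ‖v x‖ ≤ M.nrm x
  v_add : ∀ x y, v (M.add x y) = v x + v y
  v_scal : ∀ c x, v (M.scal c x) = c • v x
  v_adj : ∀ x y, ‖v (M.adj x) - v (M.adj y)‖ ≤ ‖v x - v y‖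
  v_mul : ∀ x x' y y', ‖v (M.mul x y) - v (M.mul x' y')‖ ≤
    M.nrm x * ‖v y - v y'‖ + ‖v x - v x'‖ * M.nrm y'
  tr_sub : ∀ x y, ‖M.tr x - M.tr y‖ ≤ ‖v x - v y‖
  tr_le : ∀ x, ‖M.tr x‖ ≤ M.nrm x
  norm2_eq : ∀ x, M.norm2 x = ‖v x‖

/-- Codes of terms. -/
inductive TC (V : Type) : Type
  | var (v : V)
  | one
  | add (s t : TC V)
  | mul (s t : TC V)
  | adj (s : TC V)
  | scal (k : ℕ) (s : TC V)
  deriving Countable

/-- The term with a given code. -/
noncomputable def TC.tm {V : Type} : TC V → Tm V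
  | .var v => .var v
  | .one => .one
  | .add s t => .add s.tm t.tm
  | .mul s t => .mul s.tm t.tm
  | .adj s => .adj s.tm
  | .scal k s => .scal (TopologicalSpace.denseSeq ℂ k) s.tm

section

variable {M : Str} {H : Type} [NormedAddCommGroup H] [NormedSpace ℂ H] {v : M.carrier → H}
  (h : VD M v)

include h

theorem VD.ball_ne (r : ℕ) : Nonempty (M.Ball r) := by
  refine ⟨⟨M.scal 0 M.one, ?_⟩⟩
  refine (h.nrm_scal 0 M.one).trans ?_
  rw [norm_zero, zero_mul]
  exact Nat.cast_nonneg r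

theorem VD.tbdd {V : Type} (t : Tm V) (R : ℝ) : ∃ C : ℝ, 0 ≤ C ∧
    ∀ x : V → M.carrier, (∀ i, M.nrm (x i) ≤ R) → M.nrm (t.val M x) ≤ C := by
  induction t with
  | var v => exact ⟨|R|, abs_nonneg R, fun x hx => (hx v).trans (le_abs_self R)⟩
  | one => exact ⟨1, zero_le_one, fun x hx => h.nrm_one⟩
  | add s t hs ht =>
    obtain ⟨C, hC, hs⟩ := hs
    obtain ⟨D, hD, ht⟩ := ht
    exact ⟨C + D, by positivity, fun x hx =>
      (h.nrm_add _ _).trans (add_le_add (hs x hx) (ht x hx))⟩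
  | mul s t hs ht =>
    obtain ⟨C, hC, hs⟩ := hs
    obtain ⟨D, hD, ht⟩ := ht
    exact ⟨C * D, by positivity, fun x hx =>
      (h.nrm_mul _ _).trans (mul_le_mul (hs x hx) (ht x hx) (h.nrm_nonneg _) hC)⟩
  | adj s hs =>
    obtain ⟨C, hC, hs⟩ := hs
    exact ⟨C, hC, fun x hx => (h.nrm_adj _).trans (hs x hx)⟩
  | scal c s hs =>
    obtain ⟨C, hC, hs⟩ := hs
    exact ⟨‖c‖ * C, by positivity, fun x hx =>
      (h.nrm_scal c _).trans (mul_le_mul_of_nonneg_left (hs x hx) (norm_nonneg c))⟩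

theorem VD.tlip {V : Type} (t : Tm V) (R : ℝ) : ∃ L : ℝ, 0 ≤ L ∧
    ∀ (x x' : V → M.carrier) (δ : ℝ), 0 ≤ δ → (∀ i, M.nrm (x i) ≤ R) → (∀ i, M.nrm (x' i) ≤ R) →
      (∀ i, ‖v (x i) - v (x' i)‖ ≤ δ) → ‖v (t.val M x) - v (t.val M x')‖ ≤ L * δ := by
  induction t with
  | var i => exact ⟨1, zero_le_one, fun x x' δ h0 hx hx' hd => by rw [one_mul]; exact hd i⟩
  | one =>
    refine ⟨0, le_rfl, fun x x' δ h0 hx hx' hd => ?_⟩
    show ‖v M.one - v M.one‖ ≤ _
    rw [sub_self, norm_zero, zero_mul]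
  | add s t hs ht =>
    obtain ⟨C, hC, hs⟩ := hs
    obtain ⟨D, hD, ht⟩ := ht
    refine ⟨C + D, by positivity, fun x x' δ h0 hx hx' hd => ?_⟩
    have h1 := hs x x' δ h0 hx hx' hd
    have h2 := ht x x' δ h0 hx hx' hd
    show ‖v (M.add (s.val M x) (t.val M x)) - v (M.add (s.val M x') (t.val M x'))‖ ≤ _
    rw [h.v_add, h.v_add, add_sub_add_comm]
    refine (norm_add_le _ _).trans ?_
    linarith
  | mul s t hs ht =>
    obtain ⟨C, hC, hs⟩ := hs
    obtain ⟨D, hD, ht⟩ := ht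
    obtain ⟨C', hC', hs'⟩ := h.tbdd s R
    obtain ⟨D', hD', ht'⟩ := h.tbdd t R
    refine ⟨C' * D + C * D', by positivity, fun x x' δ h0 hx hx' hd => ?_⟩
    have h1 := hs x x' δ h0 hx hx' hd
    have h2 := ht x x' δ h0 hx hx' hd
    refine (h.v_mul _ _ _ _).trans ?_
    have h3 := mul_le_mul (hs' x hx) h2 (norm_nonneg _) hC'
    have h4 := mul_le_mul h1 (ht' x' hx') (h.nrm_nonneg _) (by positivity)
    nlinarith
  | adj s hs =>
    obtain ⟨C, hC, hs⟩ := hs
    exact ⟨C, hC, fun x x' δ h0 hx hx' hd => (h.v_adj _ _).trans (hs x x' δ h0 hx hx' hd)⟩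
  | scal c s hs =>
    obtain ⟨C, hC, hs⟩ := hs
    refine ⟨‖c‖ * C, by positivity, fun x x' δ h0 hx hx' hd => ?_⟩
    show ‖v (M.scal c (s.val M x)) - v (M.scal c (s.val M x'))‖ ≤ _
    rw [h.v_scal, h.v_scal, ← smul_sub, norm_smul, mul_assoc]
    exact mul_le_mul_of_nonneg_left (hs x x' δ h0 hx hx' hd) (norm_nonneg c)

theorem VD.tapprox {V : Type} (t : Tm V) (R : ℝ) : ∀ ε : ℝ, 0 < ε → ∃ t' : TC V,
    ∀ x : V → M.carrier, (∀ i, M.nrm (x i) ≤ R) →
      ‖v (t.val M x) - v (t'.tm.val M x)‖ ≤ ε := by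
  induction t with
  | var i =>
    intro ε hε
    refine ⟨.var i, fun x hx => ?_⟩
    show ‖v (x i) - v (x i)‖ ≤ ε
    rw [sub_self, norm_zero]
    exact hε.le
  | one =>
    intro ε hε
    refine ⟨.one, fun x hx => ?_⟩
    show ‖v M.one - v M.one‖ ≤ ε
    rw [sub_self, norm_zero]
    exact hε.le
  | add s t hs ht =>
    intro ε hε
    obtain ⟨s', hs'⟩ := hs (ε / 2) (by linarith)
    obtain ⟨t', ht'⟩ := ht (ε / 2) (by linarith)
    refine ⟨.add s' t', fun x hx => ?_⟩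
    show ‖v (M.add (s.val M x) (t.val M x)) - v (M.add (s'.tm.val M x) (t'.tm.val M x))‖ ≤ _
    rw [h.v_add, h.v_add, add_sub_add_comm]
    refine (norm_add_le _ _).trans ?_
    linarith [hs' x hx, ht' x hx]
  | mul s t hs ht =>
    intro ε hε
    obtain ⟨C, hC, hsb⟩ := h.tbdd s R
    obtain ⟨t', ht'⟩ := ht (ε / (2 * (C + 1))) (by positivity)
    obtain ⟨D, hD, htb⟩ := h.tbdd t'.tm R
    obtain ⟨s', hs'⟩ := hs (ε / (2 * (D + 1))) (by positivity)
    refine ⟨.mul s' t', fun x hx => ?_⟩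
    refine (h.v_mul _ _ _ _).trans ?_
    have h1 : M.nrm (s.val M x) * ‖v (t.val M x) - v (t'.tm.val M x)‖ ≤
        C * (ε / (2 * (C + 1))) :=
      mul_le_mul (hsb x hx) (ht' x hx) (norm_nonneg _) hC
    have h2 : ‖v (s.val M x) - v (s'.tm.val M x)‖ * M.nrm (t'.tm.val M x) ≤
        (ε / (2 * (D + 1))) * D :=
      mul_le_mul (hs' x hx) (htb x hx) (h.nrm_nonneg _) (by positivity)
    have h3 : C * (ε / (2 * (C + 1))) ≤ ε / 2 := by
      rw [← mul_div_assoc, div_le_div_iff₀ (by positivity) (by norm_num)]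
      nlinarith
    have h4 : (ε / (2 * (D + 1))) * D ≤ ε / 2 := by
      rw [div_mul_eq_mul_div, div_le_div_iff₀ (by positivity) (by norm_num)]
      nlinarith
    show M.nrm (s.val M x) * ‖v (t.val M x) - v (t'.tm.val M x)‖ +
      ‖v (s.val M x) - v (s'.tm.val M x)‖ * M.nrm (t'.tm.val M x) ≤ ε
    linarith
  | adj s hs =>
    intro ε hε
    obtain ⟨s', hs'⟩ := hs ε hε
    exact ⟨.adj s', fun x hx => (h.v_adj _ _).trans (hs' x hx)⟩
  | scal c s hs =>
    intro ε hε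
    obtain ⟨C, hC, hsb⟩ := h.tbdd s R
    obtain ⟨k, hk⟩ : ∃ k, ‖c - TopologicalSpace.denseSeq ℂ k‖ < ε / (2 * (C + 1)) := by
      obtain ⟨k, hk⟩ := (TopologicalSpace.denseRange_denseSeq ℂ).exists_dist_lt c
        (show 0 < ε / (2 * (C + 1)) by positivity)
      exact ⟨k, by rwa [dist_eq_norm] at hk⟩
    set d := TopologicalSpace.denseSeq ℂ k with hd
    obtain ⟨s', hs'⟩ := hs (ε / (2 * (‖d‖ + 1))) (by positivity)
    refine ⟨.scal k s', fun x hx => ?_⟩
    show ‖v (M.scal c (s.val M x)) - v (M.scal d (s'.tm.val M x))‖ ≤ _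
    rw [h.v_scal, h.v_scal]
    have e : c • v (s.val M x) - d • v (s'.tm.val M x) =
        (c - d) • v (s.val M x) + d • (v (s.val M x) - v (s'.tm.val M x)) := by
      rw [sub_smul, smul_sub]; abel
    rw [e]
    refine (norm_add_le _ _).trans ?_
    rw [norm_smul, norm_smul]
    have h1 : ‖c - d‖ * ‖v (s.val M x)‖ ≤ (ε / (2 * (C + 1))) * C :=
      mul_le_mul hk.le ((h.v_le _).trans (hsb x hx)) (norm_nonneg _) (by positivity)
    have h2 : ‖d‖ * ‖v (s.val M x) - v (s'.tm.val M x)‖ ≤ ‖d‖ * (ε / (2 * (‖d‖ + 1))) :=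
      mul_le_mul_of_nonneg_left (hs' x hx) (norm_nonneg _)
    have h3 : (ε / (2 * (C + 1))) * C ≤ ε / 2 := by
      rw [div_mul_eq_mul_div, div_le_div_iff₀ (by positivity) (by norm_num)]
      nlinarith
    have h4 : ‖d‖ * (ε / (2 * (‖d‖ + 1))) ≤ ε / 2 := by
      have := norm_nonneg d
      rw [← mul_div_assoc, div_le_div_iff₀ (by positivity) (by norm_num)]
      nlinarith
    linarith

theorem VD.cons_bdd {n : ℕ} {r : ℕ} {R : ℝ} {x : Fin n → M.carrier} (hx : ∀ i, M.nrm (x i) ≤ R)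
    (y : M.Ball r) (i : Fin (n + 1)) :
    M.nrm (Fin.cons (α := fun _ => M.carrier) y.1 x i) ≤ max R r := by
  refine Fin.cases ?_ (fun j => ?_) i
  · exact y.2.trans (le_max_right _ _)
  · exact (hx j).trans (le_max_left _ _)

omit h in
theorem abs_iSup_sub_le {ι : Type} [Nonempty ι] (f g : ι → ℝ) (C ε : ℝ) (hf : ∀ i, |f i| ≤ C)
    (hg : ∀ i, |g i| ≤ C) (hfg : ∀ i, |f i - g i| ≤ ε) : |(⨆ i, f i) - ⨆ i, g i| ≤ ε := by
  have bf : BddAbove (Set.range f) := ⟨C, by rintro _ ⟨i, rfl⟩; exact (abs_le.1 (hf i)).2⟩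
  have bg : BddAbove (Set.range g) := ⟨C, by rintro _ ⟨i, rfl⟩; exact (abs_le.1 (hg i)).2⟩
  rw [abs_le]
  constructor
  · have : (⨆ i, g i) ≤ (⨆ i, f i) + ε := ciSup_le fun i => by
      have h1 := (abs_le.1 (hfg i)).1
      have h2 := le_ciSup bf i
      linarith
    linarith
  · have : (⨆ i, f i) ≤ (⨆ i, g i) + ε := ciSup_le fun i => by
      have h1 := (abs_le.1 (hfg i)).2
      have h2 := le_ciSup bg i
      linarith
    linarith

omit h in
theorem abs_iInf_sub_le {ι : Type} [Nonempty ι] (f g : ι → ℝ) (C ε : ℝ) (hf : ∀ i, |f i| ≤ C)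
    (hg : ∀ i, |g i| ≤ C) (hfg : ∀ i, |f i - g i| ≤ ε) : |(⨅ i, f i) - ⨅ i, g i| ≤ ε := by
  have bf : BddBelow (Set.range f) := ⟨-C, by rintro _ ⟨i, rfl⟩; exact (abs_le.1 (hf i)).1⟩
  have bg : BddBelow (Set.range g) := ⟨-C, by rintro _ ⟨i, rfl⟩; exact (abs_le.1 (hg i)).1⟩
  rw [abs_le]
  constructor
  · have : (⨅ i, g i) - ε ≤ (⨅ i, f i) := le_ciInf fun i => by
      have h1 := (abs_le.1 (hfg i)).1
      have h2 := ciInf_le bg i
      linarith
    linarith
  · have : (⨅ i, f i) - ε ≤ (⨅ i, g i) := le_ciInf fun i => by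
      have h1 := (abs_le.1 (hfg i)).2
      have h2 := ciInf_le bf i
      linarith
    linarith

omit h in
theorem abs_iSup_le {ι : Type} [Nonempty ι] (f : ι → ℝ) (C : ℝ) (hf : ∀ i, |f i| ≤ C) :
    |⨆ i, f i| ≤ C := by
  have := abs_iSup_sub_le f (fun _ => 0) (max C 0) C (fun i => (hf i).trans (le_max_left _ _))
    (fun i => by rw [abs_zero]; exact le_max_right _ _) (fun i => by rw [sub_zero]; exact hf i)
  rwa [ciSup_const, sub_zero] at this

omit h in
theorem abs_iInf_le {ι : Type} [Nonempty ι] (f : ι → ℝ) (C : ℝ) (hf : ∀ i, |f i| ≤ C) :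
    |⨅ i, f i| ≤ C := by
  have := abs_iInf_sub_le f (fun _ => 0) (max C 0) C (fun i => (hf i).trans (le_max_left _ _))
    (fun i => by rw [abs_zero]; exact le_max_right _ _) (fun i => by rw [sub_zero]; exact hf i)
  rwa [ciInf_const, sub_zero] at this

theorem VD.fbdd {n : ℕ} (φ : Fm n) : ∀ R : ℝ, ∃ C : ℝ, 0 ≤ C ∧
    ∀ x : Fin n → M.carrier, (∀ i, M.nrm (x i) ≤ R) → |φ.val M x| ≤ C := by
  induction φ with
  | re t =>
    intro R
    obtain ⟨C, hC, hb⟩ := h.tbdd t R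
    exact ⟨C, hC, fun x hx => (Complex.abs_re_le_norm _).trans ((h.tr_le _).trans (hb x hx))⟩
  | im t =>
    intro R
    obtain ⟨C, hC, hb⟩ := h.tbdd t R
    exact ⟨C, hC, fun x hx => (Complex.abs_im_le_norm _).trans ((h.tr_le _).trans (hb x hx))⟩
  | nrm t =>
    intro R
    obtain ⟨C, hC, hb⟩ := h.tbdd t R
    refine ⟨C, hC, fun x hx => ?_⟩
    show |M.norm2 (t.val M x)| ≤ C
    rw [h.norm2_eq, abs_norm]
    exact (h.v_le _).trans (hb x hx)
  | @conn n k u φ ih =>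
    intro R
    choose C hC hb using fun i => ih i R
    have hK : IsCompact (Set.univ.pi fun i : Fin k => Set.Icc (-C i) (C i)) :=
      isCompact_univ_pi fun i => isCompact_Icc
    obtain ⟨D, hD⟩ := hK.exists_bound_of_continuousOn u.continuous.continuousOn
    refine ⟨max D 0, le_max_right _ _, fun x hx => ?_⟩
    show |u fun i => (φ i).val M x| ≤ _
    refine (hD (fun i => (φ i).val M x) ?_).trans (le_max_left _ _)
    intro i _
    exact abs_le.1 (hb i x hx)
  | sup r φ ih =>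
    intro R
    obtain ⟨C, hC, hb⟩ := ih (max R r)
    have := h.ball_ne r
    exact ⟨C, hC, fun x hx => abs_iSup_le _ C fun y => hb _ (h.cons_bdd hx y)⟩
  | inf r φ ih =>
    intro R
    obtain ⟨C, hC, hb⟩ := ih (max R r)
    have := h.ball_ne r
    exact ⟨C, hC, fun x hx => abs_iInf_le _ C fun y => hb _ (h.cons_bdd hx y)⟩

omit h in
theorem exists_pos_le_fin (k : ℕ) (δ : Fin k → ℝ) (hδ : ∀ i, 0 < δ i) :
    ∃ δ0 : ℝ, 0 < δ0 ∧ ∀ i, δ0 ≤ δ i := by
  induction k with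
  | zero => exact ⟨1, zero_lt_one, fun i => i.elim0⟩
  | succ k ih =>
    obtain ⟨d, hd, hle⟩ := ih (fun i => δ i.succ) (fun i => hδ _)
    refine ⟨min d (δ 0), lt_min hd (hδ 0), fun i => ?_⟩
    refine Fin.cases ?_ (fun j => ?_) i
    · exact min_le_right _ _
    · exact (min_le_left _ _).trans (hle j)

theorem VD.fcont {n : ℕ} (φ : Fm n) : ∀ R ε : ℝ, 0 < ε → ∃ δ : ℝ, 0 < δ ∧
    ∀ x x' : Fin n → M.carrier, (∀ i, M.nrm (x i) ≤ R) → (∀ i, M.nrm (x' i) ≤ R) →
      (∀ i, ‖v (x i) - v (x' i)‖ ≤ δ) → |φ.val M x - φ.val M x'| ≤ ε := by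
  have hterm : ∀ {n : ℕ} (t : Tm (Fin n)) (R ε : ℝ), 0 < ε → ∃ δ : ℝ, 0 < δ ∧
      ∀ x x' : Fin n → M.carrier, (∀ i, M.nrm (x i) ≤ R) → (∀ i, M.nrm (x' i) ≤ R) →
      (∀ i, ‖v (x i) - v (x' i)‖ ≤ δ) → ‖v (t.val M x) - v (t.val M x')‖ ≤ ε := by
    intro n t R ε hε
    obtain ⟨L, hL, hl⟩ := h.tlip t R
    refine ⟨ε / (L + 1), by positivity, fun x x' hx hx' hd => ?_⟩
    refine (hl x x' _ (by positivity) hx hx' hd).trans ?_
    rw [← mul_div_assoc, div_le_iff₀ (by positivity)]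
    nlinarith
  induction φ with
  | re t =>
    intro R ε hε
    obtain ⟨δ, hδ, hc⟩ := hterm t R ε hε
    refine ⟨δ, hδ, fun x x' hx hx' hd => ?_⟩
    show |(M.tr (t.val M x)).re - (M.tr (t.val M x')).re| ≤ ε
    rw [← Complex.sub_re]
    exact (Complex.abs_re_le_norm _).trans ((h.tr_sub _ _).trans (hc x x' hx hx' hd))
  | im t =>
    intro R ε hε
    obtain ⟨δ, hδ, hc⟩ := hterm t R ε hε
    refine ⟨δ, hδ, fun x x' hx hx' hd => ?_⟩
    show |(M.tr (t.val M x)).im - (M.tr (t.val M x')).im| ≤ ε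
    rw [← Complex.sub_im]
    exact (Complex.abs_im_le_norm _).trans ((h.tr_sub _ _).trans (hc x x' hx hx' hd))
  | nrm t =>
    intro R ε hε
    obtain ⟨δ, hδ, hc⟩ := hterm t R ε hε
    refine ⟨δ, hδ, fun x x' hx hx' hd => ?_⟩
    show |M.norm2 (t.val M x) - M.norm2 (t.val M x')| ≤ ε
    rw [h.norm2_eq, h.norm2_eq]
    exact (abs_norm_sub_norm_le _ _).trans (hc x x' hx hx' hd)
  | @conn n k u φ ih =>
    intro R ε hε
    choose C hC hb using fun i => h.fbdd (φ i) R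
    have hK : IsCompact (Set.univ.pi fun i : Fin k => Set.Icc (-C i) (C i)) :=
      isCompact_univ_pi fun i => isCompact_Icc
    have hu := hK.uniformContinuousOn_of_continuous u.continuous.continuousOn
    rw [Metric.uniformContinuousOn_iff] at hu
    obtain ⟨η, hη, hu⟩ := hu ε hε
    choose δ hδ hc using fun i => ih i R (η / 2) (by linarith)
    obtain ⟨δ0, hδ0, hle⟩ : ∃ δ0 : ℝ, 0 < δ0 ∧ ∀ i, δ0 ≤ δ i := exists_pos_le_fin k δ hδ
    refine ⟨δ0, hδ0, fun x x' hx hx' hd => ?_⟩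
    · have h1 : ∀ i, |(φ i).val M x - (φ i).val M x'| ≤ η / 2 := by
        intro i
        exact hc i x x' hx hx' fun j => (hd j).trans (hle i)
      have h2 := hu (fun i => (φ i).val M x) (fun i _ => abs_le.1 (hb i x hx))
        (fun i => (φ i).val M x') (fun i _ => abs_le.1 (hb i x' hx')) (by
          refine (dist_pi_lt_iff hη).2 fun i => ?_
          rw [Real.dist_eq]
          exact (h1 i).trans_lt (by linarith))
      rw [Real.dist_eq] at h2
      exact h2.le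
  | sup r φ ih =>
    intro R ε hε
    obtain ⟨δ, hδ, hc⟩ := ih (max R r) ε hε
    obtain ⟨C, hC, hb⟩ := h.fbdd φ (max R r)
    have := h.ball_ne r
    refine ⟨δ, hδ, fun x x' hx hx' hd => abs_iSup_sub_le _ _ C ε (fun y => hb _ (h.cons_bdd hx y))
      (fun y => hb _ (h.cons_bdd hx' y)) fun y => hc _ _ (h.cons_bdd hx y) (h.cons_bdd hx' y) ?_⟩
    intro i
    refine Fin.cases ?_ (fun j => ?_) i
    · show ‖v y.1 - v y.1‖ ≤ δ
      rw [sub_self, norm_zero]
      exact hδ.le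
    · exact hd j
  | inf r φ ih =>
    intro R ε hε
    obtain ⟨δ, hδ, hc⟩ := ih (max R r) ε hε
    obtain ⟨C, hC, hb⟩ := h.fbdd φ (max R r)
    have := h.ball_ne r
    refine ⟨δ, hδ, fun x x' hx hx' hd => abs_iInf_sub_le _ _ C ε (fun y => hb _ (h.cons_bdd hx y))
      (fun y => hb _ (h.cons_bdd hx' y)) fun y => hc _ _ (h.cons_bdd hx y) (h.cons_bdd hx' y) ?_⟩
    intro i
    refine Fin.cases ?_ (fun j => ?_) i
    · show ‖v y.1 - v y.1‖ ≤ δ
      rw [sub_self, norm_zero]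
      exact hδ.le
    · exact hd j

end

/-- The countable set of formulas of level `d` in `n` variables. -/
def FS : ℕ → (n : ℕ) → Set (Fm n)
  | 0, n => (Set.range fun t : TC (Fin n) => Fm.re t.tm) ∪
      (Set.range fun t : TC (Fin n) => Fm.im t.tm) ∪ Set.range fun t : TC (Fin n) => Fm.nrm t.tm
  | d + 1, n => FS d n ∪ (⋃ p : ℕ × ℕ, (fun φ : Fin p.1 → Fm n =>
      Fm.conn (TopologicalSpace.denseSeq C(Fin p.1 → ℝ, ℝ) p.2) φ) ''
        Set.univ.pi fun _ => FS d n) ∪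
      (⋃ r : ℕ, Fm.sup r '' FS d (n + 1)) ∪ ⋃ r : ℕ, Fm.inf r '' FS d (n + 1)

theorem FS_countable (d : ℕ) : ∀ n, (FS d n).Countable := by
  induction d with
  | zero =>
    intro n
    exact ((Set.countable_range _).union (Set.countable_range _)).union (Set.countable_range _)
  | succ d ih =>
    intro n
    refine (((ih n).union ?_).union ?_).union ?_
    · refine Set.countable_iUnion fun p => Set.Countable.image ?_ _
      exact Set.countable_univ_pi fun _ => ih n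
    · exact Set.countable_iUnion fun r => (ih (n + 1)).image _
    · exact Set.countable_iUnion fun r => (ih (n + 1)).image _

theorem FS_mono {d d' : ℕ} (hd : d ≤ d') (n : ℕ) : FS d n ⊆ FS d' n := by
  induction hd with
  | refl => exact subset_rfl
  | step _ ih => exact ih.trans fun φ hφ => Or.inl (Or.inl (Or.inl hφ))

/-- All the formulas of all levels. -/
def FA (n : ℕ) : Set (Fm n) := ⋃ d, FS d n

theorem FA_countable (n : ℕ) : (FA n).Countable := Set.countable_iUnion fun d => FS_countable d n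

theorem exists_ub_fin (k : ℕ) (δ : Fin k → ℕ) : ∃ δ0 : ℕ, ∀ i, δ i ≤ δ0 :=
  ⟨Finset.univ.sup δ, fun i => Finset.le_sup (Finset.mem_univ i)⟩

theorem VD.approx {M : Str} {H : Type} [NormedAddCommGroup H] [NormedSpace ℂ H]
    {v : M.carrier → H} (h : VD M v) {n : ℕ} (φ : Fm n) : ∀ R ε : ℝ, 0 < ε → ∃ ψ ∈ FA n,
    ∀ x : Fin n → M.carrier, (∀ i, M.nrm (x i) ≤ R) → |φ.val M x - ψ.val M x| ≤ ε := by
  induction φ with
  | re t =>
    intro R ε hε
    obtain ⟨t', ht'⟩ := h.tapprox t R ε hε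
    refine ⟨.re t'.tm, Set.mem_iUnion.2 ⟨0, Or.inl (Or.inl ⟨t', rfl⟩)⟩, fun x hx => ?_⟩
    show |(M.tr (t.val M x)).re - (M.tr (t'.tm.val M x)).re| ≤ ε
    rw [← Complex.sub_re]
    exact (Complex.abs_re_le_norm _).trans ((h.tr_sub _ _).trans (ht' x hx))
  | im t =>
    intro R ε hε
    obtain ⟨t', ht'⟩ := h.tapprox t R ε hε
    refine ⟨.im t'.tm, Set.mem_iUnion.2 ⟨0, Or.inl (Or.inr ⟨t', rfl⟩)⟩, fun x hx => ?_⟩
    show |(M.tr (t.val M x)).im - (M.tr (t'.tm.val M x)).im| ≤ ε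
    rw [← Complex.sub_im]
    exact (Complex.abs_im_le_norm _).trans ((h.tr_sub _ _).trans (ht' x hx))
  | nrm t =>
    intro R ε hε
    obtain ⟨t', ht'⟩ := h.tapprox t R ε hε
    refine ⟨.nrm t'.tm, Set.mem_iUnion.2 ⟨0, Or.inr ⟨t', rfl⟩⟩, fun x hx => ?_⟩
    show |M.norm2 (t.val M x) - M.norm2 (t'.tm.val M x)| ≤ ε
    rw [h.norm2_eq, h.norm2_eq]
    exact (abs_norm_sub_norm_le _ _).trans (ht' x hx)
  | @conn n k u φ ih =>
    intro R ε hε
    choose C hC hb using fun i => h.fbdd (φ i) R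
    have hK : IsCompact (Set.univ.pi fun i : Fin k => Set.Icc (-(C i + 1)) (C i + 1)) :=
      isCompact_univ_pi fun i => isCompact_Icc
    have hu := hK.uniformContinuousOn_of_continuous u.continuous.continuousOn
    rw [Metric.uniformContinuousOn_iff] at hu
    obtain ⟨η, hη, hu⟩ := hu (ε / 2) (by linarith)
    set η' := min (η / 2) 1 with hη'
    have hη'0 : 0 < η' := lt_min (by linarith) zero_lt_one
    choose ψ hψ hc using fun i => ih i R η' hη'0
    choose d hd using fun i => Set.mem_iUnion.1 (hψ i)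
    obtain ⟨d0, hd0⟩ := exists_ub_fin k d
    obtain ⟨j, hj⟩ : ∃ j, ∀ y ∈ (Set.univ.pi fun i : Fin k => Set.Icc (-(C i + 1)) (C i + 1)),
        dist (u y) (TopologicalSpace.denseSeq C(Fin k → ℝ, ℝ) j y) < ε / 2 := by
      have hopen : {w : C(Fin k → ℝ, ℝ) | ∀ y ∈ (Set.univ.pi fun i : Fin k =>
          Set.Icc (-(C i + 1)) (C i + 1)), dist (u y) (w y) < ε / 2} ∈ 𝓝 u := by
        have := (ContinuousMap.tendsto_iff_forall_isCompact_tendstoUniformlyOn
          (F := fun w : C(Fin k → ℝ, ℝ) => w) (f := u) (p := 𝓝 u)).1 Filter.tendsto_id _ hK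
        rw [Metric.tendstoUniformlyOn_iff] at this
        exact this (ε / 2) (by linarith)
      obtain ⟨w, ⟨j, rfl⟩, hw⟩ :=
        (TopologicalSpace.denseRange_denseSeq C(Fin k → ℝ, ℝ)).inter_nhds_nonempty hopen
      exact ⟨j, hw⟩
    refine ⟨.conn (TopologicalSpace.denseSeq C(Fin k → ℝ, ℝ) j) ψ, ?_, fun x hx => ?_⟩
    · refine Set.mem_iUnion.2 ⟨d0 + 1, Or.inl (Or.inl (Or.inr ?_))⟩
      refine Set.mem_iUnion.2 ⟨(k, j), ⟨ψ, fun i _ => FS_mono (hd0 i) n (hd i), rfl⟩⟩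
    · have h1 : ∀ i, |(φ i).val M x - (ψ i).val M x| ≤ η' := fun i => hc i x hx
      have hφm : (fun i => (φ i).val M x) ∈
          (Set.univ.pi fun i : Fin k => Set.Icc (-(C i + 1)) (C i + 1)) := by
        intro i _
        have := abs_le.1 (hb i x hx)
        exact ⟨by linarith [this.1], by linarith [this.2]⟩
      have hψm : (fun i => (ψ i).val M x) ∈
          (Set.univ.pi fun i : Fin k => Set.Icc (-(C i + 1)) (C i + 1)) := by
        intro i _
        have h2 := abs_le.1 (hb i x hx)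
        have h3 := abs_le.1 (h1 i)
        have h4 : η' ≤ 1 := min_le_right _ _
        exact ⟨by linarith [h2.1, h3.2], by linarith [h2.2, h3.1]⟩
      have h2 := hu _ hφm _ hψm (by
        refine (dist_pi_lt_iff hη).2 fun i => ?_
        rw [Real.dist_eq]
        exact (h1 i).trans_lt ((min_le_left _ _).trans_lt (by linarith)))
      have h3 := hj _ hψm
      have h4 := dist_triangle (u fun i => (φ i).val M x) (u fun i => (ψ i).val M x)
        (TopologicalSpace.denseSeq C(Fin k → ℝ, ℝ) j fun i => (ψ i).val M x)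
      show |u (fun i => (φ i).val M x) -
        TopologicalSpace.denseSeq C(Fin k → ℝ, ℝ) j (fun i => (ψ i).val M x)| ≤ ε
      rw [← Real.dist_eq]
      linarith
  | @sup n r φ ih =>
    intro R ε hε
    obtain ⟨ψ, hψ, hc⟩ := ih (max R r) ε hε
    obtain ⟨C, hC, hb⟩ := h.fbdd φ (max R r)
    obtain ⟨C', hC', hb'⟩ := h.fbdd ψ (max R r)
    obtain ⟨d, hd⟩ := Set.mem_iUnion.1 hψ
    have := h.ball_ne r
    refine ⟨.sup r ψ, Set.mem_iUnion.2 ⟨d + 1, Or.inl (Or.inr (Set.mem_iUnion.2 ⟨r, ⟨ψ, hd, rfl⟩⟩))⟩,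
      fun x hx => abs_iSup_sub_le _ _ (max C C') ε
        (fun y => (hb _ (h.cons_bdd hx y)).trans (le_max_left _ _))
        (fun y => (hb' _ (h.cons_bdd hx y)).trans (le_max_right _ _))
        fun y => hc _ (h.cons_bdd hx y)⟩
  | @inf n r φ ih =>
    intro R ε hε
    obtain ⟨ψ, hψ, hc⟩ := ih (max R r) ε hε
    obtain ⟨C, hC, hb⟩ := h.fbdd φ (max R r)
    obtain ⟨C', hC', hb'⟩ := h.fbdd ψ (max R r)
    obtain ⟨d, hd⟩ := Set.mem_iUnion.1 hψ
    have := h.ball_ne r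
    refine ⟨.inf r ψ, Set.mem_iUnion.2 ⟨d + 1, Or.inr (Set.mem_iUnion.2 ⟨r, ⟨ψ, hd, rfl⟩⟩)⟩,
      fun x hx => abs_iInf_sub_le _ _ (max C C') ε
        (fun y => (hb _ (h.cons_bdd hx y)).trans (le_max_left _ _))
        (fun y => (hb' _ (h.cons_bdd hx y)).trans (le_max_right _ _))
        fun y => hc _ (h.cons_bdd hx y)⟩

/-- `ι` preserves the operations, the norm and the trace. -/
structure Emb (N M : Str) (ι : N.carrier → M.carrier) : Prop where
  one : ι N.one = M.one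
  add : ∀ x y, ι (N.add x y) = M.add (ι x) (ι y)
  mul : ∀ x y, ι (N.mul x y) = M.mul (ι x) (ι y)
  adj : ∀ x, ι (N.adj x) = M.adj (ι x)
  scal : ∀ c x, ι (N.scal c x) = M.scal c (ι x)
  nrm : ∀ x, M.nrm (ι x) = N.nrm x
  tr : ∀ x, M.tr (ι x) = N.tr x

theorem Emb.tval {N M : Str} {ι : N.carrier → M.carrier} (e : Emb N M ι) {V : Type} (t : Tm V)
    (x : V → N.carrier) : t.val M (fun i => ι (x i)) = ι (t.val N x) := by
  induction t with
  | var v => rfl
  | one => exact e.one.symm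
  | add s t hs ht =>
    show M.add (s.val M _) (t.val M _) = ι (N.add (s.val N x) (t.val N x))
    rw [hs, ht, e.add]
  | mul s t hs ht =>
    show M.mul (s.val M _) (t.val M _) = ι (N.mul (s.val N x) (t.val N x))
    rw [hs, ht, e.mul]
  | adj s hs =>
    show M.adj (s.val M _) = ι (N.adj (s.val N x))
    rw [hs, e.adj]
  | scal c s hs =>
    show M.scal c (s.val M _) = ι (N.scal c (s.val N x))
    rw [hs, e.scal]

/-- The Tarski-Vaught test. -/
theorem Emb.tv {N M : Str} {ι : N.carrier → M.carrier} (e : Emb N M ι)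
    {H : Type} [NormedAddCommGroup H] [NormedSpace ℂ H] {v : M.carrier → H} (h : VD M v)
    (tv : ∀ (n : ℕ) (φ : Fm (n + 1)) (r : ℕ) (x : Fin n → N.carrier) (y : M.Ball r) (ε : ℝ),
      0 < ε → ∃ y' : N.Ball r, |φ.val M (Fin.cons y.1 fun i => ι (x i)) -
        φ.val M (Fin.cons (ι y'.1) fun i => ι (x i))| ≤ ε)
    {n : ℕ} (φ : Fm n) : ∀ x : Fin n → N.carrier, φ.val M (fun i => ι (x i)) = φ.val N x := by
  induction φ with
  | re t => intro x; show (M.tr _).re = (N.tr _).re; rw [e.tval, e.tr]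
  | im t => intro x; show (M.tr _).im = (N.tr _).im; rw [e.tval, e.tr]
  | nrm t =>
    intro x
    show M.norm2 _ = N.norm2 _
    rw [e.tval]
    unfold Str.norm2
    rw [← e.adj, ← e.mul, e.tr]
  | conn u φ ih =>
    intro x
    show u _ = u _
    congr 1
    funext i
    exact ih i x
  | @sup n r φ ih =>
    intro x
    have hne := h.ball_ne r
    have hneN : Nonempty (N.Ball r) := by
      obtain ⟨y', -⟩ := tv n φ r x (Classical.arbitrary _) 1 zero_lt_one
      exact ⟨y'⟩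
    obtain ⟨R, hR⟩ : ∃ R : ℝ, ∀ i, M.nrm (ι (x i)) ≤ R :=
      ⟨∑ i, |M.nrm (ι (x i))|, fun i => (le_abs_self _).trans
        (Finset.single_le_sum (f := fun i => |M.nrm (ι (x i))|) (fun i _ => abs_nonneg _)
          (Finset.mem_univ i))⟩
    obtain ⟨C, hC, hb⟩ := h.fbdd φ (max R r)
    have hcons : ∀ y' : N.Ball r, (fun i => ι ((Fin.cons (α := fun _ => N.carrier) y'.1 x) i)) =
        Fin.cons (α := fun _ => M.carrier) (ι y'.1) fun i => ι (x i) := by
      intro y'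
      funext i
      refine Fin.cases ?_ (fun j => ?_) i
      · rfl
      · rfl
    have hval : ∀ y' : N.Ball r, φ.val N (Fin.cons y'.1 x) =
        φ.val M (Fin.cons (ι y'.1) fun i => ι (x i)) := by
      intro y'
      rw [← ih (Fin.cons y'.1 x), hcons]
    have hbM : BddAbove (Set.range fun y : M.Ball r =>
        φ.val M (Fin.cons y.1 fun i => ι (x i))) :=
      ⟨C, by rintro _ ⟨y, rfl⟩; exact (abs_le.1 (hb _ (h.cons_bdd hR y))).2⟩
    have hin : ∀ y' : N.Ball r, M.nrm (ι y'.1) ≤ r := fun y' => by rw [e.nrm]; exact y'.2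
    have hbN : BddAbove (Set.range fun y : N.Ball r => φ.val N (Fin.cons y.1 x)) :=
      ⟨C, by
        rintro _ ⟨y, rfl⟩
        show φ.val N (Fin.cons y.1 x) ≤ C
        rw [hval]
        exact (abs_le.1 (hb _ (h.cons_bdd hR ⟨ι y.1, hin y⟩))).2⟩
    show (⨆ y : M.Ball r, φ.val M (Fin.cons y.1 fun i => ι (x i))) =
      ⨆ y : N.Ball r, φ.val N (Fin.cons y.1 x)
    refine le_antisymm (ciSup_le fun y => ?_) (ciSup_le fun y' => ?_)
    · refine le_of_forall_pos_le_add fun ε hε => ?_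
      obtain ⟨y', hy'⟩ := tv n φ r x y ε hε
      have h1 := le_ciSup hbN y'
      rw [hval] at h1
      have h2 := (abs_le.1 hy').2
      linarith
    · rw [hval]
      exact le_ciSup hbM ⟨ι y'.1, hin y'⟩
  | @inf n r φ ih =>
    intro x
    have hne := h.ball_ne r
    have hneN : Nonempty (N.Ball r) := by
      obtain ⟨y', -⟩ := tv n φ r x (Classical.arbitrary _) 1 zero_lt_one
      exact ⟨y'⟩
    obtain ⟨R, hR⟩ : ∃ R : ℝ, ∀ i, M.nrm (ι (x i)) ≤ R :=
      ⟨∑ i, |M.nrm (ι (x i))|, fun i => (le_abs_self _).trans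
        (Finset.single_le_sum (f := fun i => |M.nrm (ι (x i))|) (fun i _ => abs_nonneg _)
          (Finset.mem_univ i))⟩
    obtain ⟨C, hC, hb⟩ := h.fbdd φ (max R r)
    have hcons : ∀ y' : N.Ball r, (fun i => ι ((Fin.cons (α := fun _ => N.carrier) y'.1 x) i)) =
        Fin.cons (α := fun _ => M.carrier) (ι y'.1) fun i => ι (x i) := by
      intro y'
      funext i
      refine Fin.cases ?_ (fun j => ?_) i
      · rfl
      · rfl
    have hval : ∀ y' : N.Ball r, φ.val N (Fin.cons y'.1 x) =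
        φ.val M (Fin.cons (ι y'.1) fun i => ι (x i)) := by
      intro y'
      rw [← ih (Fin.cons y'.1 x), hcons]
    have hbM : BddBelow (Set.range fun y : M.Ball r =>
        φ.val M (Fin.cons y.1 fun i => ι (x i))) :=
      ⟨-C, by rintro _ ⟨y, rfl⟩; exact (abs_le.1 (hb _ (h.cons_bdd hR y))).1⟩
    have hin : ∀ y' : N.Ball r, M.nrm (ι y'.1) ≤ r := fun y' => by rw [e.nrm]; exact y'.2
    have hbN : BddBelow (Set.range fun y : N.Ball r => φ.val N (Fin.cons y.1 x)) :=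
      ⟨-C, by
        rintro _ ⟨y, rfl⟩
        show -C ≤ φ.val N (Fin.cons y.1 x)
        rw [hval]
        exact (abs_le.1 (hb _ (h.cons_bdd hR ⟨ι y.1, hin y⟩))).1⟩
    show (⨅ y : M.Ball r, φ.val M (Fin.cons y.1 fun i => ι (x i))) =
      ⨅ y : N.Ball r, φ.val N (Fin.cons y.1 x)
    refine le_antisymm (le_ciInf fun y' => ?_) (le_ciInf fun y => ?_)
    · rw [hval]
      exact ciInf_le hbM ⟨ι y'.1, hin y'⟩
    · refine le_of_forall_pos_le_add fun ε hε => ?_
      obtain ⟨y', hy'⟩ := tv n φ r x y ε hε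
      have h1 := ciInf_le hbN y'
      rw [hval] at h1
      have h2 := (abs_le.1 hy').1
      linarith

end Pool.Agent.H313EC
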