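import Mathlib
import Pool.Agent.H313EC.Logic

/-!
Group von Neumann algebras as structures, and the extension and compression maps for subgroups.
-/

set_option autoImplicit false
set_option linter.unusedSectionVars false

namespace Pool.Agent.H313EC

open Pool.Agent.H504R3.S
open scoped InnerProductSpace ComplexConjugate ENNReal

/-- `ℓ²(G)`. -/
abbrev L2 (G : Type) : Type := lp (fun _ : G => ℂ) 2

/-- squared norm -/
noncomputable def N2 {α : Type} (f : α → ℂ) : ℝ≥0∞ := ∑' i, ‖f i‖ₑ ^ 2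

theorem memℓp_two_iff {α : Type} (f : α → ℂ) : Memℓp f 2 ↔ N2 f ≠ ⊤ := by
  rw [memℓp_gen_iff (by norm_num)]
  have h1 : N2 f = ∑' i, ((‖f i‖₊ ^ 2 : NNReal) : ℝ≥0∞) := by
    unfold N2
    congr 1
  rw [h1, ENNReal.tsum_coe_ne_top_iff_summable, ← NNReal.summable_coe]
  simp

theorem N2_lp {α : Type} (f : L2 α) : N2 f = ENNReal.ofReal (‖f‖ ^ 2) := by
  have h1 : ‖f‖ ^ 2 = ∑' i, ‖f i‖ ^ 2 := by
    have := lp.norm_rpow_eq_tsum (p := 2) (by norm_num) f
    simpa using this
  have h2 : Summable fun i => ‖f i‖ ^ 2 := by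
    have := (lp.memℓp f).summable (by norm_num)
    simpa using this
  rw [h1, ENNReal.ofReal_tsum_of_nonneg (fun i => by positivity) h2]
  unfold N2
  congr 1
  funext i
  rw [ENNReal.ofReal_pow (norm_nonneg _), ofReal_norm]

theorem norm_le_of_N2 {α β : Type} (f : L2 α) (g : L2 β) {C : ℝ} (hC : 0 ≤ C)
    (h : N2 f ≤ ENNReal.ofReal (C ^ 2) * N2 g) : ‖f‖ ≤ C * ‖g‖ := by
  rw [N2_lp, N2_lp, ← ENNReal.ofReal_mul (by positivity),
    ENNReal.ofReal_le_ofReal_iff (by positivity), ← mul_pow] at h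
  exact le_of_sq_le_sq h (by positivity)

theorem N2_comp {α β : Type} (s : α → β) (hs : Function.Injective s) (f : β → ℂ) :
    N2 (fun a => f (s a)) ≤ N2 f :=
  ENNReal.tsum_comp_le_tsum_of_injective hs fun b => ‖f b‖ₑ ^ 2

/-- The set `P` of operators is closed under the operations of a `*`-algebra. -/
structure OpClosed {H : Type} [NormedAddCommGroup H] [InnerProductSpace ℂ H] [CompleteSpace H]
    (P : (H →L[ℂ] H) → Prop) : Prop where
  one : P 1
  add : ∀ x y, P x → P y → P (x + y)
  mul : ∀ x y, P x → P y → P (x * y)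
  adj : ∀ x, P x → P (star x)
  scal : ∀ (c : ℂ) x, P x → P (c • x)

/-- The structure given by a `*`-algebra `P` of bounded operators on a Hilbert space and the vector
functional `x ↦ ⟨ξ, x ξ⟩`. -/
noncomputable def opStr {H : Type} [NormedAddCommGroup H] [InnerProductSpace ℂ H] [CompleteSpace H]
    (P : (H →L[ℂ] H) → Prop) (hP : OpClosed P) (ξ : H) : Str where
  carrier := {x : H →L[ℂ] H // P x}
  one := ⟨1, hP.one⟩
  add x y := ⟨x.1 + y.1, hP.add _ _ x.2 y.2⟩
  mul x y := ⟨x.1 * y.1, hP.mul _ _ x.2 y.2⟩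
  adj x := ⟨star x.1, hP.adj _ x.2⟩
  scal c x := ⟨c • x.1, hP.scal c _ x.2⟩
  nrm x := ‖x.1‖
  tr x := ⟪ξ, x.1 ξ⟫_ℂ

/-- Pull back along an injective map. -/
noncomputable def pull {α β : Type} (s : α → β) (hs : Function.Injective s) : L2 β →L[ℂ] L2 α :=
  LinearMap.mkContinuous
    { toFun := fun f => ⟨fun a => f (s a), (memℓp_two_iff _).2
        (ne_top_of_le_ne_top ((memℓp_two_iff _).1 (lp.memℓp f)) (N2_comp s hs f))⟩
      map_add' := fun f g => rfl
      map_smul' := fun c f => rfl } 1 (by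
    intro f
    refine norm_le_of_N2 _ _ zero_le_one ?_
    rw [one_pow, ENNReal.ofReal_one, one_mul]
    exact N2_comp s hs f)

theorem pull_apply {α β : Type} (s : α → β) (hs : Function.Injective s) (f : L2 β) (a : α) :
    pull s hs f a = f (s a) := rfl

theorem norm_pull_le {α β : Type} (s : α → β) (hs : Function.Injective s) : ‖pull s hs‖ ≤ 1 :=
  LinearMap.mkContinuous_norm_le _ zero_le_one _

/-- The basis vector at `g`. -/
noncomputable def dl {G : Type} (g : G) : L2 G := by
  classical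
  exact lp.single 2 g (1 : ℂ)

theorem dl_self {G : Type} (g : G) : (dl g : L2 G) g = 1 := by
  classical
  unfold dl
  rw [lp.single_apply_self]

theorem dl_ne {G : Type} {g x : G} (h : x ≠ g) : (dl g : L2 G) x = 0 := by
  classical
  unfold dl
  rw [lp.single_apply_ne _ _ _ h]

theorem inner_dl {G : Type} (g : G) (f : L2 G) : ⟪dl g, f⟫_ℂ = f g := by
  classical
  unfold dl
  rw [lp.inner_single_left]
  simp

theorem inner_dl_right {G : Type} (g : G) (f : L2 G) : ⟪f, dl g⟫_ℂ = conj (f g) := by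
  rw [← inner_conj_symm, inner_dl]

theorem norm_dl {G : Type} (g : G) : ‖(dl g : L2 G)‖ = 1 := by
  have h := inner_self_eq_norm_sq (𝕜 := ℂ) (dl g : L2 G)
  rw [inner_dl, dl_self] at h
  have h2 : ‖(dl g : L2 G)‖ ^ 2 = 1 := by
    rw [← h]; simp
  nlinarith [norm_nonneg (dl g : L2 G)]

section push

variable {α β : Type} (s : α → β) (hs : Function.Injective s)

/-- Extension by zero. -/
noncomputable def push : L2 α →L[ℂ] L2 β := ContinuousLinearMap.adjoint (pull s hs)

theorem norm_push_le : ‖push s hs‖ ≤ 1 := by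
  unfold push
  rw [LinearIsometryEquiv.norm_map]
  exact norm_pull_le s hs

theorem push_apply (f : L2 α) (a : α) : push s hs f (s a) = f a := by
  rw [← inner_dl, push, ContinuousLinearMap.adjoint_inner_right]
  have : pull s hs (dl (s a)) = dl a := by
    ext x
    rw [pull_apply]
    by_cases h : x = a
    · rw [h, dl_self, dl_self]
    · rw [dl_ne h, dl_ne fun h' => h (hs h')]
  rw [this, inner_dl]

theorem push_apply_ne (f : L2 α) (b : β) (hb : ∀ a, s a ≠ b) : push s hs f b = 0 := by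
  rw [← inner_dl, push, ContinuousLinearMap.adjoint_inner_right]
  have : pull s hs (dl b) = 0 := by
    ext x
    rw [pull_apply, dl_ne (hb x)]
    rfl
  rw [this, inner_zero_left]

theorem push_dl (a : α) : push s hs (dl a) = dl (s a) := by
  ext b
  by_cases h : ∃ a', s a' = b
  · obtain ⟨a', rfl⟩ := h
    rw [push_apply]
    by_cases h : a' = a
    · rw [h, dl_self, dl_self]
    · rw [dl_ne h, dl_ne fun h' => h (hs h')]
  · rw [push_apply_ne s hs _ _ fun a' h' => h ⟨a', h'⟩, dl_ne fun h' => h ⟨a, h'.symm⟩]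

end push

section LG

variable {G : Type} [Group G]

/-- `T` commutes with the right translations of `ℓ²(G)`. -/
def CommutesRight {G : Type} [Group G] (T : L2 G →L[ℂ] L2 G) : Prop :=
  ∀ (g : G) (f f' : L2 G), (∀ x, f' x = f (x * g)) → ∀ x, T f' x = T f (x * g)

theorem CommutesRight.one : CommutesRight (1 : L2 G →L[ℂ] L2 G) := fun _ _ _ h => h

theorem CommutesRight.add {S T : L2 G →L[ℂ] L2 G} (hS : CommutesRight S) (hT : CommutesRight T) :
    CommutesRight (S + T) := by
  intro g f f' h x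
  show S f' x + T f' x = S f (x * g) + T f (x * g)
  rw [hS g f f' h, hT g f f' h]

theorem CommutesRight.mul {S T : L2 G →L[ℂ] L2 G} (hS : CommutesRight S) (hT : CommutesRight T) :
    CommutesRight (S * T) := fun g f f' h => hS g (T f) (T f') (hT g f f' h)

theorem CommutesRight.smul (c : ℂ) {S : L2 G →L[ℂ] L2 G} (hS : CommutesRight S) :
    CommutesRight (c • S) := by
  intro g f f' h x
  show c * S f' x = c * S f (x * g)
  rw [hS g f f' h]

theorem CommutesRight.dl {T : L2 G →L[ℂ] L2 G} (hT : CommutesRight T) (m g : G) :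
    T (dl m) g = T (dl 1) (g * m⁻¹) := by
  refine hT m⁻¹ (H313EC.dl 1) (H313EC.dl m) (fun x => ?_) g
  by_cases h : x = m
  · rw [h, dl_self, mul_inv_cancel, dl_self]
  · rw [dl_ne h, dl_ne fun h' => h (mul_inv_eq_one.1 h')]

theorem inner_translate (g : G) (a f f' : L2 G) (a' : L2 G) (hf : ∀ x, f' x = f (x * g))
    (ha : ∀ x, a' x = a (x * g⁻¹)) : ⟪a, f'⟫_ℂ = ⟪a', f⟫_ℂ := by
  rw [lp.inner_eq_tsum, lp.inner_eq_tsum,
    ← (Equiv.mulRight g).tsum_eq (fun x => ⟪a' x, f x⟫_ℂ)]
  congr 1
  funext x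
  show ⟪a x, f' x⟫_ℂ = ⟪a' (x * g), f (x * g)⟫_ℂ
  rw [hf, ha, mul_inv_cancel_right]

theorem CommutesRight.adj {T : L2 G →L[ℂ] L2 G} (hT : CommutesRight T) :
    CommutesRight (star T) := by
  intro g f f' h x
  rw [ContinuousLinearMap.star_eq_adjoint, ← inner_dl, ← inner_dl,
    ContinuousLinearMap.adjoint_inner_right, ContinuousLinearMap.adjoint_inner_right]
  refine inner_translate g _ _ _ _ h fun y => ?_
  rw [hT.dl (x * g) y, hT.dl x (y * g⁻¹), mul_inv_rev, mul_assoc]

theorem CommutesRight.adj_dl {T : L2 G →L[ℂ] L2 G} (hT : CommutesRight T) (g : G) :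
    (star T) (H313EC.dl 1) g = conj (T (H313EC.dl 1) g⁻¹) := by
  rw [ContinuousLinearMap.star_eq_adjoint, ← inner_dl, ContinuousLinearMap.adjoint_inner_right,
    inner_dl_right, hT.dl g 1, one_mul]

theorem CommutesRight.norm_adj_dl {T : L2 G →L[ℂ] L2 G} (hT : CommutesRight T) :
    ‖(star T) (H313EC.dl 1)‖ = ‖T (H313EC.dl 1)‖ := by
  have h1 : N2 ((star T) (H313EC.dl 1)) = N2 (T (H313EC.dl 1)) := by
    unfold N2
    rw [← (Equiv.inv G).tsum_eq]
    congr 1
    funext g
    rw [hT.adj_dl, Equiv.inv_apply, inv_inv]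
    congr 1
    exact RCLike.enorm_conj _
  rw [N2_lp, N2_lp, ENNReal.ofReal_eq_ofReal_iff (by positivity) (by positivity)] at h1
  exact (sq_eq_sq₀ (norm_nonneg _) (norm_nonneg _)).1 h1

theorem CommutesRight.ext {S T : L2 G →L[ℂ] L2 G} (hS : CommutesRight S) (hT : CommutesRight T)
    (h : ∀ g, S (H313EC.dl 1) g = T (H313EC.dl 1) g) : S = T := by
  have h1 : ∀ x, ContinuousLinearMap.adjoint S (H313EC.dl x) =
      ContinuousLinearMap.adjoint T (H313EC.dl x) := by
    intro x
    ext g
    rw [← inner_dl, ← inner_dl, ContinuousLinearMap.adjoint_inner_right,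
      ContinuousLinearMap.adjoint_inner_right, inner_dl_right, inner_dl_right, hS.dl, hT.dl, h]
  ext f x
  rw [← inner_dl, ← inner_dl, ← ContinuousLinearMap.adjoint_inner_left,
    ← ContinuousLinearMap.adjoint_inner_left, h1]

variable (G) in
theorem opClosed_commutesRight : OpClosed (CommutesRight (G := G)) where
  one := CommutesRight.one
  add := fun _ _ => CommutesRight.add
  mul := fun _ _ => CommutesRight.mul
  adj := fun _ => CommutesRight.adj
  scal := fun c _ => CommutesRight.smul c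

variable (G) in
/-- The group von Neumann algebra of `G` with its canonical trace: the bounded operators on `ℓ²(G)`
which commute with the right translations, with the trace `x ↦ ⟨δ_1, x δ_1⟩`. -/
noncomputable def LG : Str := opStr CommutesRight (opClosed_commutesRight G) (dl 1)

theorem tr_LG (x : (LG G).carrier) : (LG G).tr x = x.1 (dl 1) 1 := inner_dl _ _

/-- The vector of an element. -/
noncomputable def vec (x : (LG G).carrier) : L2 G := x.1 (dl 1)

theorem norm_apply_dl_le (T : L2 G →L[ℂ] L2 G) (g : G) : ‖T (dl g)‖ ≤ ‖T‖ := by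
  have := T.le_opNorm (dl g)
  rwa [norm_dl, mul_one] at this

theorem norm_coef_le (f : L2 G) (g : G) : ‖f g‖ ≤ ‖f‖ := by
  rw [← inner_dl]
  refine (norm_inner_le_norm _ _).trans ?_
  rw [norm_dl, one_mul]

theorem vd_LG : VD (LG G) (vec (G := G)) where
  nrm_nonneg x := norm_nonneg _
  nrm_one := ContinuousLinearMap.norm_id_le
  nrm_add x y := norm_add_le _ _
  nrm_mul x y := norm_mul_le _ _
  nrm_adj x := (norm_star x.1).le
  nrm_scal c x := norm_smul_le c x.1
  v_le x := norm_apply_dl_le x.1 1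
  v_add x y := rfl
  v_scal c x := rfl
  v_adj x y := by
    have h : CommutesRight (x.1 - y.1) := by
      have := x.2.add (y.2.smul (-1))
      rwa [neg_one_smul, ← sub_eq_add_neg] at this
    have h2 := h.norm_adj_dl
    rw [star_sub] at h2
    exact h2.le
  v_mul x x' y y' := by
    have h : CommutesRight (x.1 - x'.1) := by
      have := x.2.add (x'.2.smul (-1))
      rwa [neg_one_smul, ← sub_eq_add_neg] at this
    have e : vec ((LG G).mul x y) - vec ((LG G).mul x' y') =
        x.1 (vec y - vec y') + ((x.1 - x'.1) * y'.1) (dl 1) := by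
      show x.1 (y.1 (dl 1)) - x'.1 (y'.1 (dl 1)) = x.1 (y.1 (dl 1) - y'.1 (dl 1)) +
        (x.1 (y'.1 (dl 1)) - x'.1 (y'.1 (dl 1)))
      rw [map_sub]; abel
    rw [e]
    refine (norm_add_le _ _).trans (add_le_add (x.1.le_opNorm _) ?_)
    rw [← (h.mul y'.2).norm_adj_dl, star_mul]
    refine ((star y'.1).le_opNorm _).trans ?_
    refine (mul_le_mul_of_nonneg_left h.norm_adj_dl.le (norm_nonneg _)).trans ?_
    rw [mul_comm]
    exact mul_le_mul_of_nonneg_left (norm_star (y'.1 : L2 G →L[ℂ] L2 G)).le (norm_nonneg _)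
  tr_sub x y := by
    rw [tr_LG, tr_LG]
    exact norm_coef_le (vec x - vec y) 1
  tr_le x := by
    rw [tr_LG]
    exact (norm_coef_le (vec x) 1).trans (norm_apply_dl_le x.1 1)
  norm2_eq x := by
    have h1 : (LG G).tr ((LG G).mul ((LG G).adj x) x) = ((‖vec x‖ ^ 2 : ℝ) : ℂ) := by
      show ⟪dl 1, (star x.1) (x.1 (dl 1))⟫_ℂ = _
      rw [ContinuousLinearMap.star_eq_adjoint, ContinuousLinearMap.adjoint_inner_right]
      rw [Complex.ofReal_pow]
      exact inner_self_eq_norm_sq_to_K _
    unfold Str.norm2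
    rw [h1, Complex.ofReal_re, Real.sqrt_sq (norm_nonneg _)]

end LG

section sub

variable {G : Type} [Group G] (K : Subgroup G)

theorem cosetmap_bij : Function.Bijective
    (fun p : (G ⧸ K) × K => (p.2 : G) * (p.1.out : G)⁻¹) := by
  constructor
  · rintro ⟨q, k⟩ ⟨q', k'⟩ h
    have h1 : (k : G) * (q.out : G)⁻¹ = (k' : G) * (q'.out : G)⁻¹ := h
    have h2 : (q.out : G) * (k : G)⁻¹ = (q'.out : G) * (k' : G)⁻¹ := by
      have := congrArg (fun z => z⁻¹) h1
      simpa using this
    have hq : q = q' := by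
      have h3 : ((q.out * (k : G)⁻¹ : G) : G ⧸ K) = ((q'.out * (k' : G)⁻¹ : G) : G ⧸ K) := by
        rw [h2]
      rw [QuotientGroup.mk_mul_of_mem _ (K.inv_mem k.2),
        QuotientGroup.mk_mul_of_mem _ (K.inv_mem k'.2)] at h3
      rwa [QuotientGroup.out_eq', QuotientGroup.out_eq'] at h3
    subst hq
    have := mul_right_cancel h1
    rw [Subtype.ext this]
  · intro m
    obtain ⟨h, hh⟩ := QuotientGroup.mk_out_eq_mul K m⁻¹
    refine ⟨(((m⁻¹ : G) : G ⧸ K), h), ?_⟩
    show (h : G) * ((((m⁻¹ : G) : G ⧸ K)).out : G)⁻¹ = m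
    rw [hh]
    group

/-- The slice of a function at `m`. -/
noncomputable def slice (m : G) : L2 G →L[ℂ] L2 K :=
  pull (fun k : K => (k : G) * m) fun _ _ h => Subtype.ext (mul_right_cancel h)

theorem slice_apply (m : G) (f : L2 G) (k : K) : slice K m f k = f ((k : G) * m) := rfl

variable {K}

theorem slice_shift {T : L2 K →L[ℂ] L2 K} (hT : CommutesRight T) (k : K) (m : G) (f : L2 G)
    (x : K) : T (slice K (k * m) f) x = T (slice K m f) (x * k) := by
  refine hT k (slice K m f) (slice K (k * m) f) (fun y => ?_) x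
  rw [slice_apply, slice_apply, Subgroup.coe_mul, mul_assoc]

theorem N2_ext {T : L2 K →L[ℂ] L2 K} (hT : CommutesRight T) (f : L2 G) :
    N2 (fun m => T (slice K m f) 1) ≤ ENNReal.ofReal (‖T‖ ^ 2) * N2 f := by
  unfold N2
  rw [← (Equiv.ofBijective _ (cosetmap_bij K)).tsum_eq (fun m => ‖T (slice K m f) 1‖ₑ ^ 2),
    ← (Equiv.ofBijective _ (cosetmap_bij K)).tsum_eq (fun m => ‖f m‖ₑ ^ 2)]
  have h1 : ∀ p : (G ⧸ K) × K, ‖T (slice K (Equiv.ofBijective _ (cosetmap_bij K) p) f) 1‖ₑ ^ 2 =
      ‖T (slice K (p.1.out : G)⁻¹ f) p.2‖ₑ ^ 2 := by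
    intro p
    rw [Equiv.ofBijective_apply, slice_shift hT, one_mul]
  rw [tsum_congr h1, ENNReal.tsum_prod', ENNReal.tsum_prod', ← ENNReal.tsum_mul_left]
  refine ENNReal.tsum_le_tsum fun q => ?_
  have h2 : N2 (T (slice K (q.out : G)⁻¹ f)) ≤ ENNReal.ofReal (‖T‖ ^ 2) *
      N2 (slice K (q.out : G)⁻¹ f) := by
    rw [N2_lp, N2_lp, ← ENNReal.ofReal_mul (by positivity), ← mul_pow]
    exact ENNReal.ofReal_le_ofReal (pow_le_pow_left₀ (norm_nonneg _) (T.le_opNorm _) 2)
  exact h2

/-- The extension of an operator on `ℓ²(K)` to `ℓ²(G)`. -/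
noncomputable def extOp {T : L2 K →L[ℂ] L2 K} (hT : CommutesRight T) : L2 G →L[ℂ] L2 G :=
  LinearMap.mkContinuous
    { toFun := fun f => ⟨fun m => T (slice K m f) 1, (memℓp_two_iff _).2
        (ne_top_of_le_ne_top (ENNReal.mul_ne_top ENNReal.ofReal_ne_top
          ((memℓp_two_iff _).1 (lp.memℓp f))) (N2_ext hT f))⟩
      map_add' := fun f g => by
        ext m
        show T (slice K m (f + g)) 1 = T (slice K m f) 1 + T (slice K m g) 1
        rw [map_add, map_add]
        rfl
      map_smul' := fun c f => by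
        ext m
        show T (slice K m (c • f)) 1 = c • T (slice K m f) 1
        rw [map_smul, map_smul]
        rfl } ‖T‖ (by
    intro f
    refine norm_le_of_N2 _ _ (norm_nonneg _) ?_
    exact N2_ext hT f)

theorem extOp_apply {T : L2 K →L[ℂ] L2 K} (hT : CommutesRight T) (f : L2 G) (m : G) :
    extOp hT f m = T (slice K m f) 1 := rfl

theorem norm_extOp_le {T : L2 K →L[ℂ] L2 K} (hT : CommutesRight T) : ‖extOp hT‖ ≤ ‖T‖ :=
  LinearMap.mkContinuous_norm_le _ (norm_nonneg _) _

theorem extOp_comm {T : L2 K →L[ℂ] L2 K} (hT : CommutesRight T) : CommutesRight (extOp hT) := by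
  intro g f f' h x
  rw [extOp_apply, extOp_apply]
  have : slice K x f' = slice K (x * g) f := by
    ext k
    rw [slice_apply, slice_apply, h, mul_assoc]
  rw [this]

theorem slice_extOp {T : L2 K →L[ℂ] L2 K} (hT : CommutesRight T) (f : L2 G) (m : G) :
    slice K m (extOp hT f) = T (slice K m f) := by
  ext k
  rw [slice_apply, extOp_apply, slice_shift hT, one_mul]

/-- The inclusion of `L(K)` in `L(G)`. -/
noncomputable def inc (x : (LG K).carrier) : (LG G).carrier := ⟨extOp x.2, extOp_comm x.2⟩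

theorem vec_inc_mem (x : (LG K).carrier) (m : K) : vec (inc x) m = vec x m := by
  show x.1 (slice K (m : G) (dl 1)) 1 = x.1 (dl 1) m
  have h := x.2 m (dl 1) (slice K (m : G) (dl 1)) (fun k => by
    rw [slice_apply]
    by_cases h : k * m = 1
    · rw [h, dl_self]
      have : (k : G) * m = 1 := by rw [← Subgroup.coe_mul, h]; rfl
      rw [this, dl_self]
    · rw [dl_ne h, dl_ne]
      intro h'
      exact h (Subtype.ext h')) 1
  rw [h, one_mul]

theorem vec_inc_not_mem (x : (LG K).carrier) (m : G) (hm : m ∉ K) : vec (inc x) m = 0 := by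
  show x.1 (slice K m (dl 1)) 1 = 0
  have : slice K m (dl 1) = 0 := by
    ext k
    rw [slice_apply, dl_ne]
    · rfl
    · intro h
      apply hm
      have : m = (k : G)⁻¹ := by rw [eq_inv_iff_mul_eq_one, mul_eq_one_iff_eq_inv]; 
                                 exact (inv_eq_of_mul_eq_one_right h).symm
      rw [this]
      exact K.inv_mem k.2
  rw [this, map_zero]
  rfl

/-- The compression of an operator on `ℓ²(G)` to `ℓ²(K)`. -/
noncomputable def cmpOp (x : L2 G →L[ℂ] L2 G) : L2 K →L[ℂ] L2 K :=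
  (pull (fun k : K => (k : G)) Subtype.val_injective) ∘L x ∘L
    (push (fun k : K => (k : G)) Subtype.val_injective)

theorem norm_cmpOp_le (x : L2 G →L[ℂ] L2 G) : ‖cmpOp (K := K) x‖ ≤ ‖x‖ := by
  unfold cmpOp
  have h1 := norm_pull_le (fun k : K => (k : G)) Subtype.val_injective
  have h2 := norm_push_le (fun k : K => (k : G)) Subtype.val_injective
  refine (ContinuousLinearMap.opNorm_comp_le _ _).trans ?_
  have h3 := ContinuousLinearMap.opNorm_comp_le x
    (push (fun k : K => (k : G)) Subtype.val_injective)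
  calc _ ≤ 1 * (‖x‖ * 1) := mul_le_mul h1 (h3.trans (mul_le_mul_of_nonneg_left h2
        (norm_nonneg _))) (norm_nonneg _) zero_le_one
    _ = ‖x‖ := by ring

theorem cmpOp_comm {x : L2 G →L[ℂ] L2 G} (hx : CommutesRight x) :
    CommutesRight (cmpOp (K := K) x) := by
  intro g f f' h k
  show x (push _ _ f') (k : G) = x (push _ _ f) ((k * g : K) : G)
  rw [Subgroup.coe_mul]
  refine hx (g : G) _ _ (fun y => ?_) _
  by_cases hy : y ∈ K
  · have e1 := push_apply (fun k : K => (k : G)) Subtype.val_injective f' ⟨y, hy⟩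
    have e2 := push_apply (fun k : K => (k : G)) Subtype.val_injective f (⟨y, hy⟩ * g)
    rw [Subgroup.coe_mul] at e2
    exact e1.trans ((h _).trans e2.symm)
  · rw [push_apply_ne _ _ _ _ (fun a h' => hy (by rw [← h']; exact a.2)), push_apply_ne]
    intro a h'
    apply hy
    have h'' : (a : G) = y * (g : G) := h'
    have : y = (a : G) * (g : G)⁻¹ := by rw [h'']; group
    rw [this]
    exact K.mul_mem a.2 (K.inv_mem g.2)

variable (K) in
/-- The conditional expectation from `L(G)` to `L(K)`. -/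
noncomputable def ce (x : (LG G).carrier) : (LG K).carrier := ⟨cmpOp x.1, cmpOp_comm x.2⟩

theorem vec_ce (x : (LG G).carrier) (k : K) : vec (ce K x) k = vec x k := by
  show x.1 (push _ _ (dl 1)) (k : G) = x.1 (dl 1) k
  rw [push_dl]
  rfl

theorem ce_inc (x : (LG K).carrier) : ce K (inc x) = x := by
  refine Subtype.ext (CommutesRight.ext (ce K (inc x)).2 x.2 fun g => ?_)
  show vec (ce K (inc x)) g = vec x g
  rw [vec_ce, vec_inc_mem]

theorem nrm_inc (x : (LG K).carrier) : (LG G).nrm (inc x) = (LG K).nrm x := by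
  refine le_antisymm (norm_extOp_le x.2) ?_
  have h := norm_cmpOp_le (K := K) (inc x).1
  have h2 : cmpOp (K := K) (inc x).1 = x.1 := congrArg Subtype.val (ce_inc x)
  rw [h2] at h
  exact h

theorem inc_ce (x : (LG G).carrier) (hx : ∀ m, m ∉ K → vec x m = 0) : inc (ce K x) = x := by
  refine Subtype.ext (CommutesRight.ext (inc (ce K x)).2 x.2 fun g => ?_)
  show vec (inc (ce K x)) g = vec x g
  by_cases hg : g ∈ K
  · rw [vec_inc_mem (ce K x) ⟨g, hg⟩, vec_ce]
  · rw [vec_inc_not_mem _ _ hg, hx g hg]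

theorem emb_inc : Emb (LG K) (LG G) (inc (K := K)) where
  one := by
    refine Subtype.ext ?_
    ext f m
    show slice K m f 1 = f m
    rw [slice_apply, Subgroup.coe_one, one_mul]
  add x y := rfl
  mul x y := by
    refine Subtype.ext ?_
    ext f m
    show x.1 (y.1 (slice K m f)) 1 = x.1 (slice K m (extOp y.2 f)) 1
    rw [slice_extOp]
  adj x := by
    refine Subtype.ext (CommutesRight.ext (inc ((LG K).adj x)).2 ((LG G).adj (inc x)).2 fun g => ?_)
    have h1 := (inc x).2.adj_dl g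
    show vec (inc ((LG K).adj x)) g = (star (inc x).1) (dl 1) g
    rw [h1]
    by_cases hg : g ∈ K
    · have h2 := vec_inc_mem ((LG K).adj x) ⟨g, hg⟩
      have h3 := vec_inc_mem x (⟨g, hg⟩⁻¹)
      have h4 := x.2.adj_dl ⟨g, hg⟩
      have h5 : ((⟨g, hg⟩⁻¹ : K) : G) = g⁻¹ := rfl
      rw [h5] at h3
      refine h2.trans (h4.trans ?_)
      exact congrArg _ h3.symm
    · rw [vec_inc_not_mem _ _ hg]
      have h2 := vec_inc_not_mem x g⁻¹ (fun h => hg (by simpa using h))
      have h3 : (inc x).1 (dl 1) g⁻¹ = 0 := h2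
      rw [h3, map_zero]
  scal c x := rfl
  nrm := nrm_inc
  tr x := by
    rw [tr_LG, tr_LG]
    exact vec_inc_mem x 1

end sub

end Pool.Agent.H313EC
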