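import Mathlib
import Pool.Agent.H313EC.VN

/-!
Downward Loewenheim-Skolem theorem for group von Neumann algebras.
-/

set_option autoImplicit false
set_option linter.unusedSectionVars false

namespace Pool.Agent.H313EC

open Pool.Agent.H504R3.S
open scoped InnerProductSpace ComplexConjugate ENNReal Topology
open Filter

theorem countable_freeGroup {α : Type} [Countable α] : Countable (FreeGroup α) :=
  Function.Surjective.countable (f := Quot.mk (FreeGroup.Red.Step (α := α))) Quot.mk_surjective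

theorem closure_countable {G : Type} [Group G] {A : Set G} (hA : A.Countable) :
    (Subgroup.closure A : Set G).Countable := by
  have : Countable A := hA.to_subtype
  have : Countable (FreeGroup A) := countable_freeGroup
  have h := FreeGroup.range_lift_eq_closure (f := fun a : A => (a : G))
  rw [Subtype.range_coe] at h
  rw [← h]
  exact Set.countable_range _

variable {G : Type} [Group G]

/-- The elements of `L(G)` supported on `S`. -/
def Sp (S : Set G) : Set (LG G).carrier := {x | ∀ m, m ∉ S → vec x m = 0}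

theorem Sp_mono {S S' : Set G} (h : S ⊆ S') : Sp S ⊆ Sp S' := fun _ hx m hm => hx m fun h' => hm (h h')

theorem single_eq_smul_dl [DecidableEq G] (i : G) (c : ℂ) : (lp.single 2 i c : L2 G) = c • dl i := by
  ext g
  show (lp.single 2 i c : L2 G) g = c * (dl i : L2 G) g
  by_cases h : g = i
  · subst h
    rw [lp.single_apply_self, dl_self, mul_one]
  · rw [lp.single_apply_ne _ _ _ h, dl_ne h, mul_zero]

theorem hasSum_dl (f : L2 G) : HasSum (fun i => f i • (dl i : L2 G)) f := by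
  classical
  have h := lp.hasSum_single (p := 2) (by norm_num) f
  simp_rw [single_eq_smul_dl] at h
  exact h

theorem isSeparable_supp {S : Set G} (hS : S.Countable) :
    TopologicalSpace.IsSeparable {f : L2 G | ∀ m, m ∉ S → f m = 0} := by
  refine ((hS.image fun g => (dl g : L2 G)).isSeparable.span (R := ℂ)).closure.mono ?_
  intro f hf
  refine mem_closure_of_tendsto (hasSum_dl f) (Eventually.of_forall fun F => ?_)
  refine Submodule.sum_mem _ fun i _ => ?_
  by_cases hi : i ∈ S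
  · exact Submodule.smul_mem _ _ (Submodule.subset_span ⟨i, hi, rfl⟩)
  · rw [hf i hi, zero_smul]
    exact Submodule.zero_mem _

theorem exists_dense {S : Set G} (hS : S.Countable) (R : ℕ) : ∃ D : Set (LG G).carrier,
    D.Countable ∧ (∀ d ∈ D, d ∈ Sp S ∧ (LG G).nrm d ≤ R) ∧
    ∀ x ∈ Sp S, (LG G).nrm x ≤ R → ∀ ε : ℝ, 0 < ε → ∃ d ∈ D, ‖vec x - vec d‖ < ε := by
  set A : Set (LG G).carrier := {x | x ∈ Sp S ∧ (LG G).nrm x ≤ R} with hA
  have hsep : TopologicalSpace.IsSeparable (vec '' A) := by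
    refine (isSeparable_supp hS).mono ?_
    rintro _ ⟨x, hx, rfl⟩
    exact hx.1
  obtain ⟨t, hts, htc, hcl⟩ := hsep.exists_countable_dense_subset
  have hch : ∀ y : t, ∃ x, x ∈ A ∧ vec x = y := fun y => hts y.2
  choose f hf using hch
  have : Countable t := htc.to_subtype
  refine ⟨Set.range f, Set.countable_range f, ?_, ?_⟩
  · rintro _ ⟨y, rfl⟩
    exact (hf y).1
  · intro x hx hR ε hε
    have h1 := hcl ⟨x, ⟨hx, hR⟩, rfl⟩
    obtain ⟨y, hy, hd⟩ := Metric.mem_closure_iff.1 h1 ε hε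
    refine ⟨f ⟨y, hy⟩, ⟨_, rfl⟩, ?_⟩
    rw [(hf ⟨y, hy⟩).2, ← dist_eq_norm]
    exact hd

theorem supp_countable (x : (LG G).carrier) : {m | vec x m ≠ 0}.Countable := by
  have h := (memℓp_two_iff _).1 (lp.memℓp (vec x))
  have h2 := Summable.countable_support_ennreal (f := fun i => ‖vec x i‖ₑ ^ 2) h
  refine h2.mono fun m hm => ?_
  show ‖vec x m‖ₑ ^ 2 ≠ 0
  have hm' : vec x m ≠ 0 := hm
  simpa using hm'

theorem norm_le_of_pointwise (f g : L2 G) (h : ∀ i, ‖f i‖ ≤ ‖g i‖) : ‖f‖ ≤ ‖g‖ := by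
  have := norm_le_of_N2 f g zero_le_one (by
    rw [one_pow, ENNReal.ofReal_one, one_mul]
    unfold N2
    refine ENNReal.tsum_le_tsum fun i => ?_
    refine pow_le_pow_left₀ bot_le ?_ 2
    rw [← ofReal_norm, ← ofReal_norm]
    exact ENNReal.ofReal_le_ofReal (h i))
  rwa [one_mul] at this

theorem sum_dl_apply (F : Finset G) (a : G → ℂ) (g : G) (hg : g ∉ F) :
    (∑ i ∈ F, a i • (dl i : L2 G)) g = 0 := by
  rw [← inner_dl, inner_sum]
  refine Finset.sum_eq_zero fun i hi => ?_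
  rw [inner_smul_right, inner_dl, dl_ne, mul_zero]
  rintro rfl
  exact hg hi

theorem approx_chain (K : ℕ → Subgroup G) (hK : Monotone K) (x : (LG G).carrier)
    (hx : x ∈ Sp (⋃ j, (K j : Set G))) (ε : ℝ) (hε : 0 < ε) : ∃ j0, ∀ j, j0 ≤ j →
    ∃ x' ∈ Sp (K j : Set G), (LG G).nrm x' ≤ (LG G).nrm x ∧ ‖vec x - vec x'‖ < ε := by
  have h1 := hasSum_dl (vec x)
  have h2 := (Metric.tendsto_nhds.1 h1 ε hε).exists
  obtain ⟨F, hF⟩ := h2
  rw [dist_eq_norm] at hF
  have h3 : ∀ g ∈ F, vec x g ≠ 0 → ∃ j, g ∈ K j := by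
    intro g _ hg
    by_contra hc
    apply hg
    refine hx g ?_
    intro hm
    obtain ⟨j, hj⟩ := Set.mem_iUnion.1 hm
    exact hc ⟨j, hj⟩
  have h4 : ∃ j0, ∀ g ∈ F, vec x g ≠ 0 → g ∈ K j0 := by
    classical
    clear hF
    induction F using Finset.induction_on with
    | empty => exact ⟨0, fun g hg => absurd hg (Finset.notMem_empty g)⟩
    | insert a s ha ih =>
      obtain ⟨j1, hj1⟩ := ih fun g hg => h3 g (Finset.mem_insert_of_mem hg)
      by_cases hxa : vec x a = 0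
      · refine ⟨j1, fun g hg hne => ?_⟩
        rcases Finset.mem_insert.1 hg with rfl | hg
        · exact absurd hxa hne
        · exact hj1 g hg hne
      · obtain ⟨j2, hj2⟩ := h3 a (Finset.mem_insert_self a s) hxa
        refine ⟨max j1 j2, fun g hg hne => ?_⟩
        rcases Finset.mem_insert.1 hg with rfl | hg
        · exact hK (le_max_right j1 j2) hj2
        · exact hK (le_max_left j1 j2) (hj1 g hg hne)
  obtain ⟨j0, hj0⟩ := h4
  refine ⟨j0, fun j hj => ⟨inc (ce (K j) x), fun m hm => vec_inc_not_mem _ _ hm, ?_, ?_⟩⟩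
  · rw [nrm_inc]
    exact norm_cmpOp_le x.1
  · refine lt_of_le_of_lt (norm_le_of_pointwise _ _ fun g => ?_) hF
    show ‖vec x g - vec (inc (ce (K j) x)) g‖ ≤
      ‖(∑ i ∈ F, vec x i • (dl i : L2 G)) g - vec x g‖
    by_cases hg : g ∈ K j
    · rw [vec_inc_mem (ce (K j) x) ⟨g, hg⟩, vec_ce, sub_self, norm_zero]
      exact norm_nonneg _
    · rw [vec_inc_not_mem _ _ hg, sub_zero]
      by_cases hgx : vec x g = 0
      · rw [hgx, norm_zero]
        exact norm_nonneg _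
      · have hgF : g ∉ F := fun h => hg (hK hj (hj0 g h hgx))
        rw [sum_dl_apply _ _ _ hgF, zero_sub, norm_neg]

/-- The witness property. -/
def Wit (K K' : Set G) : Prop := ∃ D : ℕ → Set (LG G).carrier,
  (∀ R, (∀ d ∈ D R, d ∈ Sp K ∧ (LG G).nrm d ≤ R) ∧
    ∀ x ∈ Sp K, (LG G).nrm x ≤ R → ∀ ε : ℝ, 0 < ε → ∃ d ∈ D R, ‖vec x - vec d‖ < ε) ∧
  ∀ (n : ℕ) (ψ : Fm (n + 1)), ψ ∈ FA (n + 1) → ∀ (r R : ℕ) (x : Fin n → (LG G).carrier),
    (∀ i, x i ∈ D R) → ∀ (q : ℚ) (p : ℕ),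
    (∃ y : (LG G).Ball r, |ψ.val (LG G) (Fin.cons y.1 x) - q| ≤ 1 / ((p : ℝ) + 1)) →
    ∃ y : (LG G).Ball r, y.1 ∈ Sp K' ∧ |ψ.val (LG G) (Fin.cons y.1 x) - q| ≤ 1 / ((p : ℝ) + 1)

theorem exists_step (T : (p : ℕ) → (Fin p → G) → Set G) (hT : ∀ p a, (T p a).Countable)
    (K : Subgroup G) (hK : (K : Set G).Countable) : ∃ K' : Subgroup G, (K' : Set G).Countable ∧
    K ≤ K' ∧ (∀ (p : ℕ) (a : Fin p → G), (∀ i, a i ∈ K) → T p a ⊆ K') ∧ Wit (K : Set G) K' := by
  choose D hDc hD1 hD2 using fun R => exists_dense hK R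
  have cD : ∀ R, Countable (D R) := fun R => (hDc R).to_subtype
  have cF : ∀ n, Countable (FA (n + 1)) := fun n => (FA_countable (n + 1)).to_subtype
  have cK : Countable K := hK.to_subtype
  let I := Σ n : ℕ, Σ R : ℕ, FA (n + 1) × ℕ × (Fin n → D R) × ℚ × ℕ
  have hch : ∀ i : I, ∃ y : (LG G).Ball i.2.2.2.1,
      (∃ y : (LG G).Ball i.2.2.2.1, |(i.2.2.1 : Fm (i.1 + 1)).val (LG G)
        (Fin.cons y.1 fun k => (i.2.2.2.2.1 k : (LG G).carrier)) - i.2.2.2.2.2.1| ≤
          1 / ((i.2.2.2.2.2.2 : ℝ) + 1)) →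
      |(i.2.2.1 : Fm (i.1 + 1)).val (LG G)
        (Fin.cons y.1 fun k => (i.2.2.2.2.1 k : (LG G).carrier)) - i.2.2.2.2.2.1| ≤
          1 / ((i.2.2.2.2.2.2 : ℝ) + 1) := by
    intro i
    by_cases h : ∃ y : (LG G).Ball i.2.2.2.1, |(i.2.2.1 : Fm (i.1 + 1)).val (LG G)
        (Fin.cons y.1 fun k => (i.2.2.2.2.1 k : (LG G).carrier)) - i.2.2.2.2.2.1| ≤
          1 / ((i.2.2.2.2.2.2 : ℝ) + 1)
    · obtain ⟨y, hy⟩ := h
      exact ⟨y, fun _ => hy⟩
    · obtain ⟨y⟩ := (vd_LG (G := G)).ball_ne i.2.2.2.1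
      exact ⟨y, fun h' => absurd h' h⟩
  choose w hw using hch
  set A : Set G := (K : Set G) ∪ (⋃ i : I, {m | vec (w i).1 m ≠ 0}) ∪
    ⋃ pa : (Σ p : ℕ, (Fin p → K)), T pa.1 fun i => (pa.2 i : G) with hA
  have hAc : A.Countable := by
    refine (hK.union ?_).union ?_
    · exact Set.countable_iUnion fun i => supp_countable _
    · exact Set.countable_iUnion fun pa => hT _ _
  refine ⟨Subgroup.closure A, closure_countable hAc, fun k hk => Subgroup.subset_closure
    (Or.inl (Or.inl hk)), ?_, D, fun R => ⟨hD1 R, hD2 R⟩, ?_⟩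
  · intro p a ha g hg
    exact Subgroup.subset_closure (Or.inr (Set.mem_iUnion.2 ⟨⟨p, fun i => ⟨a i, ha i⟩⟩, hg⟩))
  · intro n ψ hψ r R x hx q p hy
    refine ⟨w ⟨n, R, ⟨ψ, hψ⟩, r, fun i => ⟨x i, hx i⟩, q, p⟩, ?_, ?_⟩
    · intro m hm
      by_contra hne
      exact hm (Subgroup.subset_closure (Or.inl (Or.inr (Set.mem_iUnion.2 ⟨_, hne⟩))))
    · exact hw ⟨n, R, ⟨ψ, hψ⟩, r, fun i => ⟨x i, hx i⟩, q, p⟩ hy

theorem LS (T : (p : ℕ) → (Fin p → G) → Set G) (hT : ∀ p a, (T p a).Countable)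
    (A0 : Set G) (hA0 : A0.Countable) : ∃ K : Subgroup G, (K : Set G).Countable ∧ A0 ⊆ K ∧
    (∀ (p : ℕ) (a : Fin p → G), (∀ i, a i ∈ K) → T p a ⊆ K) ∧ (LG K).ElemEq (LG G) := by
  choose! nxt hc hle hTn hW using exists_step T hT
  obtain ⟨Ks, hK0, hK1⟩ : ∃ Ks : ℕ → Subgroup G, Ks 0 = Subgroup.closure A0 ∧
      ∀ n, Ks (n + 1) = nxt (Ks n) :=
    ⟨fun n => Nat.rec (motive := fun _ => Subgroup G) (Subgroup.closure A0) (fun _ K => nxt K) n,
      rfl, fun n => rfl⟩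
  have hKc : ∀ n, (Ks n : Set G).Countable := by
    intro n
    induction n with
    | zero => rw [hK0]; exact closure_countable hA0
    | succ n ih => rw [hK1]; exact hc _ ih
  have hmono : Monotone Ks := monotone_nat_of_le_succ fun n => by
    rw [hK1]; exact hle _ (hKc n)
  set K : Subgroup G := ⨆ n, Ks n with hKdef
  have hmem : ∀ g, g ∈ K ↔ ∃ n, g ∈ Ks n := fun g =>
    Subgroup.mem_iSup_of_directed hmono.directed_le
  have hcoe : (K : Set G) = ⋃ j, (Ks j : Set G) := by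
    ext g
    rw [Set.mem_iUnion]
    exact hmem g
  have hfin : ∀ (p : ℕ) (a : Fin p → G), (∀ i, a i ∈ K) → ∃ n, ∀ i, a i ∈ Ks n := by
    intro p a ha
    choose m hm using fun i => (hmem _).1 (ha i)
    obtain ⟨n, hn⟩ := exists_ub_fin p m
    exact ⟨n, fun i => hmono (hn i) (hm i)⟩
  refine ⟨K, ?_, ?_, ?_, ?_⟩
  · rw [hcoe]
    exact Set.countable_iUnion hKc
  · intro g hg
    exact (hmem g).2 ⟨0, by rw [hK0]; exact Subgroup.subset_closure hg⟩
  · intro p a ha g hg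
    obtain ⟨n, hn⟩ := hfin p a ha
    exact (hmem g).2 ⟨n + 1, by rw [hK1]; exact hTn (Ks n) (hKc n) p a hn hg⟩
  · intro φ
    have key := (emb_inc (K := K)).tv (vd_LG (G := G)) ?_ φ Fin.elim0
    · rw [← key]
      congr 1
      funext i
      exact i.elim0
    intro n φ r x y ε hε
    obtain ⟨R0, hR0⟩ : ∃ R0 : ℝ, ∀ i, (LG G).nrm (inc (x i)) ≤ R0 :=
      ⟨∑ i, |(LG G).nrm (inc (x i))|, fun i => (le_abs_self _).trans
        (Finset.single_le_sum (f := fun i => |(LG G).nrm (inc (x i))|) (fun i _ => abs_nonneg _)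
          (Finset.mem_univ i))⟩
    obtain ⟨R, hR⟩ := exists_nat_ge R0
    have hxR : ∀ i, (LG G).nrm (inc (x i)) ≤ R := fun i => (hR0 i).trans hR
    have h8 : 0 < ε / 8 := by linarith
    obtain ⟨ψ, hψ, hap⟩ := (vd_LG (G := G)).approx φ (max (R : ℝ) r) (ε / 8) h8
    obtain ⟨δ, hδ, hcont⟩ := (vd_LG (G := G)).fcont φ (max (R : ℝ) r) (ε / 8) h8
    -- the stage
    have hsp : ∀ i, inc (x i) ∈ Sp (⋃ j, (Ks j : Set G)) := by
      intro i m hm
      rw [← hcoe] at hm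
      exact vec_inc_not_mem _ _ hm
    choose j hj using fun i => approx_chain Ks hmono (inc (x i)) (hsp i) (δ / 2) (by linarith)
    obtain ⟨j0, hj0⟩ := exists_ub_fin n j
    choose x' hx'S hx'R hx'd using fun i => hj i j0 (hj0 i)
    obtain ⟨D, hD, hwit⟩ := hW _ (hKc j0)
    rw [← hK1] at hwit
    choose d hdD hdd using fun i => (hD R).2 (x' i) (hx'S i) ((hx'R i).trans (hxR i)) (δ / 2)
      (by linarith)
    have hdR : ∀ i, (LG G).nrm (d i) ≤ R := fun i => ((hD R).1 _ (hdD i)).2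
    have hclose : ∀ i, ‖vec (inc (x i)) - vec (d i)‖ ≤ δ := by
      intro i
      have h1 := hx'd i
      have h2 := hdd i
      have e : vec (inc (x i)) - vec (d i) =
        (vec (inc (x i)) - vec (x' i)) + (vec (x' i) - vec (d i)) := by abel
      rw [e]
      exact (norm_add_le _ _).trans (by linarith)
    have hcont2 : ∀ z : (LG G).Ball r, |φ.val (LG G) (Fin.cons z.1 fun i => inc (x i)) -
        φ.val (LG G) (Fin.cons z.1 d)| ≤ ε / 8 := by
      intro z
      refine hcont _ _ ((vd_LG (G := G)).cons_bdd hxR z) ((vd_LG (G := G)).cons_bdd hdR z) ?_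
      intro i
      refine Fin.cases ?_ (fun k => ?_) i
      · show ‖vec z.1 - vec z.1‖ ≤ δ
        rw [sub_self, norm_zero]
        exact hδ.le
      · exact hclose k
    have hap2 : ∀ z : (LG G).Ball r, |φ.val (LG G) (Fin.cons z.1 d) -
        ψ.val (LG G) (Fin.cons z.1 d)| ≤ ε / 8 := fun z =>
      hap _ ((vd_LG (G := G)).cons_bdd hdR z)
    obtain ⟨p, hp⟩ := exists_nat_one_div_lt h8
    obtain ⟨q, hq1, hq2⟩ := exists_rat_btwn
      (show ψ.val (LG G) (Fin.cons y.1 d) - 1 / ((p : ℝ) + 1) < ψ.val (LG G) (Fin.cons y.1 d) by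
        have : 0 < 1 / ((p : ℝ) + 1) := by positivity
        linarith)
    obtain ⟨y', hy'S, hy'⟩ := hwit n ψ hψ r R d hdD q p ⟨y, by
      rw [abs_le]; constructor <;> linarith [show (0 : ℝ) < 1 / ((p : ℝ) + 1) by positivity]⟩
    have hy'K : ∀ m, m ∉ K → vec y'.1 m = 0 := by
      intro m hm
      refine hy'S m fun h => hm ?_
      exact (hmem m).2 ⟨j0 + 1, h⟩
    have hinc : inc (ce K y'.1) = y'.1 := inc_ce y'.1 hy'K
    refine ⟨⟨ce K y'.1, ?_⟩, ?_⟩
    · rw [← nrm_inc, hinc]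
      exact y'.2
    · show |φ.val (LG G) (Fin.cons y.1 fun i => inc (x i)) -
        φ.val (LG G) (Fin.cons (inc (ce K y'.1)) fun i => inc (x i))| ≤ ε
      rw [hinc]
      have a1 := abs_le.1 (hcont2 y)
      have a2 := abs_le.1 (hcont2 y')
      have a3 := abs_le.1 (hap2 y)
      have a4 := abs_le.1 (hap2 y')
      have a5 := abs_le.1 hy'
      rw [abs_le]
      constructor <;> linarith [a1.1, a1.2, a2.1, a2.2, a3.1, a3.2, a4.1, a4.2, a5.1, a5.2]

end Pool.Agent.H313EC
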