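import Mathlib
import Pool.Agent.H313EC.LS
import Pool.Agent.H313EC.Grp

/-!
Existentially closed groups; pairs of nonisomorphic countable subgroups of the big group with
elementarily equivalent group von Neumann algebras.
-/

set_option autoImplicit false
set_option linter.unusedSectionVars false

namespace Pool.Agent.H313EC

open Pool.Agent.H504R3.S

theorem exists_pair (T : (p : ℕ) → (Fin p → Big) → Set Big) (hT : ∀ p a, (T p a).Countable) :
    ∃ K0 K1 : Subgroup Big, (K0 : Set Big).Countable ∧ (K1 : Set Big).Countable ∧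
      (∀ (p : ℕ) (a : Fin p → Big), (∀ i, a i ∈ K0) → T p a ⊆ K0) ∧
      (∀ (p : ℕ) (a : Fin p → Big), (∀ i, a i ∈ K1) → T p a ⊆ K1) ∧
      ¬ Nonempty (K0 ≃* K1) ∧ (LG K0).ElemEq (LG K1) := by
  obtain ⟨K0, hc0, -, hT0, he0⟩ := LS T hT ∅ Set.countable_empty
  have c0 : Countable K0 := hc0.to_subtype
  obtain ⟨S, hS⟩ : ∃ S : Set ℕ, S ∉ Set.range fun ab : K0 × K0 => pat ab.1 ab.2 := by
    by_contra h
    push Not at h
    have h1 : (Set.univ : Set (Set ℕ)).Countable :=
      (Set.countable_range fun ab : K0 × K0 => pat ab.1 ab.2).mono fun S _ => h S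
    rw [Set.countable_univ_iff] at h1
    obtain ⟨f, hf⟩ := exists_injective_nat (Set ℕ)
    exact Function.cantor_injective f hf
  obtain ⟨a, b, hab⟩ := exists_pat S
  let a0 : Lv 0 := a
  let b0 : Lv 0 := b
  have hab' : pat a0 b0 = S := hab
  obtain ⟨K1, hc1, hA1, hT1, he1⟩ := LS T hT {toBig 0 a0, toBig 0 b0}
    ((Set.finite_singleton _).insert _).countable
  refine ⟨K0, K1, hc0, hc1, hT0, hT1, ?_, fun φ => (he0 φ).trans (he1 φ).symm⟩
  rintro ⟨e⟩
  let a1 : K1 := ⟨toBig 0 a0, hA1 (Or.inl rfl)⟩
  let b1 : K1 := ⟨toBig 0 b0, hA1 (Or.inr rfl)⟩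
  apply hS
  refine ⟨(e.symm a1, e.symm b1), ?_⟩
  have h1 : pat (e.symm.toMonoidHom a1) (e.symm.toMonoidHom b1) = pat a1 b1 :=
    pat_map e.symm.toMonoidHom e.symm.injective a1 b1
  have h2 : pat (K1.subtype a1) (K1.subtype b1) = pat a1 b1 :=
    pat_map K1.subtype Subtype.val_injective a1 b1
  have h3 : pat (toBig 0 a0) (toBig 0 b0) = pat a0 b0 := pat_map (toBig 0) (toBig_injective 0) a0 b0
  show pat (e.symm.toMonoidHom a1) (e.symm.toMonoidHom b1) = S
  rw [h1, ← h2]
  exact h3.trans hab'

/-- In the group `H`, `x` solves the system of the equations `w = 1`, `w ∈ E`, and the inequations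
`w ≠ 1`, `w ∈ I`, with the constants `a`; the words `w` are elements of the free group on the
constants and the unknowns. -/
def Solves {p m : ℕ} (E I : Finset (FreeGroup (Fin p ⊕ Fin m))) {H : Type} [Group H]
    (a : Fin p → H) (x : Fin m → H) : Prop :=
  (∀ w ∈ E, FreeGroup.lift (Sum.elim a x) w = 1) ∧ ∀ w ∈ I, FreeGroup.lift (Sum.elim a x) w ≠ 1

/-- `G` is existentially closed: every finite system of equations and inequations with constants from
`G` that has a solution in some group containing `G` has a solution in `G`. -/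
def IsEC (G : Type) [Group G] : Prop :=
  ∀ (p m : ℕ) (E I : Finset (FreeGroup (Fin p ⊕ Fin m))) (a : Fin p → G),
    (∃ (H : Type) (_ : Group H) (c : G →* H), Function.Injective c ∧
      ∃ x : Fin m → H, Solves E I (fun i => c (a i)) x) →
    ∃ x : Fin m → G, Solves E I a x

theorem lift_map {p m : ℕ} {G H : Type} [Group G] [Group H] (c : G →* H) (a : Fin p → G)
    (x : Fin m → G) (w : FreeGroup (Fin p ⊕ Fin m)) :
    FreeGroup.lift (Sum.elim (fun i => c (a i)) fun i => c (x i)) w =
      c (FreeGroup.lift (Sum.elim a x) w) := by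
  have h : FreeGroup.lift (Sum.elim (fun i => c (a i)) fun i => c (x i)) =
      c.comp (FreeGroup.lift (Sum.elim a x)) := by
    ext i
    rcases i with i | i
    · simp
    · simp
  rw [h]
  rfl

theorem solves_map {p m : ℕ} (E I : Finset (FreeGroup (Fin p ⊕ Fin m))) {G H : Type} [Group G]
    [Group H] (c : G →* H) (hc : Function.Injective c) (a : Fin p → G) (x : Fin m → G) :
    Solves E I (fun i => c (a i)) (fun i => c (x i)) ↔ Solves E I a x := by
  unfold Solves
  simp only [lift_map, map_eq_one_iff c hc, ne_eq]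

open Classical in
/-- The solution operator. -/
noncomputable def TE (p : ℕ) (a : Fin p → Big) : Set Big :=
  ⋃ s : (Σ m : ℕ, Finset (FreeGroup (Fin p ⊕ Fin m)) × Finset (FreeGroup (Fin p ⊕ Fin m))),
    if h : ∃ x : Fin s.1 → Big, Solves s.2.1 s.2.2 a x then Set.range h.choose else ∅

theorem TE_countable (p : ℕ) (a : Fin p → Big) : (TE p a).Countable := by
  have : ∀ m : ℕ, Countable (FreeGroup (Fin p ⊕ Fin m)) := fun m => countable_freeGroup
  refine Set.countable_iUnion fun s => ?_
  split_ifs
  · exact Set.countable_range _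
  · exact Set.countable_empty

theorem isEC_of_closed (K : Subgroup Big)
    (hK : ∀ (p : ℕ) (a : Fin p → Big), (∀ i, a i ∈ K) → TE p a ⊆ K) : IsEC K := by
  classical
  rintro p m E I a ⟨H, _, c, hc, x, hx⟩
  set A : Set Big := Set.range fun i => (a i : Big) with hA
  have hAf : A.Finite := Set.finite_range _
  have hAK : Subgroup.closure A ≤ K := by
    rw [Subgroup.closure_le]
    rintro _ ⟨i, rfl⟩
    exact (a i).2
  have hAc : Countable (Subgroup.closure A) := (closure_countable hAf.countable).to_subtype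
  let c' : Subgroup.closure A →* H := c.comp (Subgroup.inclusion hAK)
  have hc' : Function.Injective c' := hc.comp (Subgroup.inclusion_injective hAK)
  let L : Subgroup H := Subgroup.closure (Set.range c' ∪ Set.range x)
  have hLc : Countable L :=
    (closure_countable ((Set.countable_range c').union (Set.countable_range x))).to_subtype
  let i : Subgroup.closure A →* L := c'.codRestrict L fun k =>
    Subgroup.subset_closure (Or.inl ⟨k, rfl⟩)
  have hi : Function.Injective i := by
    intro k k' hkk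
    exact hc' (congrArg Subtype.val hkk)
  obtain ⟨J, hJ, hJi⟩ := big_embed A hAf L i hi
  let aA : Fin p → Subgroup.closure A := fun k => ⟨a k, Subgroup.subset_closure ⟨k, rfl⟩⟩
  let xL : Fin m → L := fun k => ⟨x k, Subgroup.subset_closure (Or.inr ⟨k, rfl⟩)⟩
  have h1 : Solves E I (fun k => i (aA k)) xL := by
    rw [← solves_map E I L.subtype Subtype.val_injective]
    exact hx
  rw [← solves_map E I J hJ] at h1
  have h2 : (fun k => J (i (aA k))) = fun k => (a k : Big) := by
    funext k
    rw [hJi]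
  rw [h2] at h1
  have h3 : ∃ y : Fin m → Big, Solves E I (fun k => (a k : Big)) y := ⟨_, h1⟩
  have h4 : Set.range h3.choose ⊆ TE p (fun k => (a k : Big)) := by
    intro g hg
    refine Set.mem_iUnion.2 ⟨⟨m, E, I⟩, ?_⟩
    rw [dif_pos h3]
    exact hg
  have h5 : ∀ k, h3.choose k ∈ K := fun k => hK p _ (fun i => (a i).2) (h4 ⟨k, rfl⟩)
  refine ⟨fun k => ⟨h3.choose k, h5 k⟩, ?_⟩
  rw [← solves_map E I K.subtype Subtype.val_injective]
  exact h3.choose_spec

theorem ec_pair : ∃ (G H : Type) (_ : Group G) (_ : Group H), Countable G ∧ Countable H ∧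
    IsEC G ∧ IsEC H ∧ ¬ Nonempty (G ≃* H) ∧ (LG G).ElemEq (LG H) := by
  obtain ⟨K0, K1, h0, h1, hT0, hT1, hne, he⟩ := exists_pair TE TE_countable
  exact ⟨K0, K1, inferInstance, inferInstance, h0.to_subtype, h1.to_subtype,
    isEC_of_closed K0 hT0, isEC_of_closed K1 hT1, hne, he⟩

end Pool.Agent.H313EC
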