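import Mathlib
import Pool.Agent.H313EC.EC

/-!
Infinitely generic groups.
-/

set_option autoImplicit false
set_option linter.unusedSectionVars false

namespace Pool.Agent.H313EC

open Pool.Agent.H504R3.S

/-- First-order formulas of the language of groups with `n` free variables; `eq w` says that the word
`w` is equal to `1`. -/
inductive GFm : ℕ → Type
  | eq {n : ℕ} (w : FreeGroup (Fin n)) : GFm n
  | neg {n : ℕ} (φ : GFm n) : GFm n
  | and {n : ℕ} (φ ψ : GFm n) : GFm n
  | ex {n : ℕ} (φ : GFm (n + 1)) : GFm n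

namespace GFm

/-- Truth of a formula in `G` when its free variables have the values `x 0, x 1, …`. -/
def Holds (G : Type) [Group G] : {n : ℕ} → GFm n → (Fin n → G) → Prop
  | _, .eq w, x => FreeGroup.lift x w = 1
  | _, .neg φ, x => ¬ φ.Holds G x
  | _, .and φ ψ, x => φ.Holds G x ∧ ψ.Holds G x
  | _, .ex φ, x => ∃ y : G, φ.Holds G (Fin.cons y x)

/-- Quantifier-free formulas. -/
inductive IsQF : {n : ℕ} → GFm n → Prop
  | eq {n : ℕ} (w : FreeGroup (Fin n)) : IsQF (.eq w)
  | neg {n : ℕ} {φ : GFm n} (h : IsQF φ) : IsQF (.neg φ)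
  | and {n : ℕ} {φ ψ : GFm n} (h : IsQF φ) (h' : IsQF ψ) : IsQF (.and φ ψ)

/-- Existential formulas: existential quantifiers in front of a quantifier-free formula. -/
inductive IsEx : {n : ℕ} → GFm n → Prop
  | qf {n : ℕ} {φ : GFm n} (h : IsQF φ) : IsEx φ
  | ex {n : ℕ} {φ : GFm (n + 1)} (h : IsEx φ) : IsEx (.ex φ)

/-- levels -/
def GS : ℕ → (n : ℕ) → Set (GFm n)
  | 0, _ => Set.range GFm.eq
  | d + 1, n => GS d n ∪ GFm.neg '' GS d n ∪
      (fun p : GFm n × GFm n => GFm.and p.1 p.2) '' (GS d n ×ˢ GS d n) ∪ GFm.ex '' GS d (n + 1)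

theorem GS_countable (d : ℕ) : ∀ n, (GS d n).Countable := by
  induction d with
  | zero =>
    intro n
    have : Countable (FreeGroup (Fin n)) := countable_freeGroup
    exact Set.countable_range _
  | succ d ih =>
    intro n
    exact (((ih n).union ((ih n).image _)).union (((ih n).prod (ih n)).image _)).union
      ((ih (n + 1)).image _)

theorem GS_mono {d d' : ℕ} (hd : d ≤ d') (n : ℕ) : GS d n ⊆ GS d' n := by
  induction hd with
  | refl => exact subset_rfl
  | step _ ih => exact ih.trans fun φ hφ => Or.inl (Or.inl (Or.inl hφ))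

theorem mem_GS {n : ℕ} (φ : GFm n) : ∃ d, φ ∈ GS d n := by
  induction φ with
  | eq w => exact ⟨0, ⟨w, rfl⟩⟩
  | neg φ ih =>
    obtain ⟨d, hd⟩ := ih
    exact ⟨d + 1, Or.inl (Or.inl (Or.inr ⟨φ, hd, rfl⟩))⟩
  | and φ ψ ih ih' =>
    obtain ⟨d, hd⟩ := ih
    obtain ⟨d', hd'⟩ := ih'
    exact ⟨max d d' + 1, Or.inl (Or.inr ⟨(φ, ψ), ⟨GS_mono (le_max_left _ _) _ hd,
      GS_mono (le_max_right _ _) _ hd'⟩, rfl⟩)⟩
  | ex φ ih =>
    obtain ⟨d, hd⟩ := ih
    exact ⟨d + 1, Or.inr ⟨φ, hd, rfl⟩⟩

instance (n : ℕ) : Countable (GFm n) := by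
  rw [← Set.countable_univ_iff]
  refine (Set.countable_iUnion fun d => GS_countable d n).mono fun φ _ => ?_
  exact Set.mem_iUnion.2 (mem_GS φ)

theorem lift_comp {n : ℕ} {G H : Type} [Group G] [Group H] (c : G →* H) (x : Fin n → G)
    (w : FreeGroup (Fin n)) : FreeGroup.lift (fun i => c (x i)) w = c (FreeGroup.lift x w) := by
  have h : FreeGroup.lift (fun i => c (x i)) = c.comp (FreeGroup.lift x) := by
    ext i
    simp
  rw [h]
  rfl

theorem cons_comp {n : ℕ} {G H : Type} (c : G → H) (y : G) (x : Fin n → G) :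
    (fun i => c ((Fin.cons y x : Fin (n + 1) → G) i)) =
      (Fin.cons (c y) fun i => c (x i) : Fin (n + 1) → H) := by
  funext i
  refine Fin.cases ?_ (fun j => ?_) i
  · rfl
  · rfl

theorem IsQF.map {n : ℕ} {φ : GFm n} (h : φ.IsQF) {G H : Type} [Group G] [Group H] (c : G →* H)
    (hc : Function.Injective c) (x : Fin n → G) :
    φ.Holds H (fun i => c (x i)) ↔ φ.Holds G x := by
  induction h with
  | eq w =>
    show FreeGroup.lift (fun i => c (x i)) w = 1 ↔ FreeGroup.lift x w = 1
    rw [lift_comp, map_eq_one_iff c hc]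
  | neg _ ih => exact not_congr ih
  | and _ _ ih ih' => exact and_congr ih ih'

theorem IsEx.up {n : ℕ} {φ : GFm n} (h : φ.IsEx) {G H : Type} [Group G] [Group H] (c : G →* H)
    (hc : Function.Injective c) (x : Fin n → G) (hx : φ.Holds G x) :
    φ.Holds H (fun i => c (x i)) := by
  induction h with
  | qf h => exact (h.map c hc x).2 hx
  | @ex n φ _ ih =>
    obtain ⟨y, hy⟩ := hx
    refine ⟨c y, ?_⟩
    have := ih _ hy
    rwa [cons_comp] at this

theorem IsEx.down {n : ℕ} {φ : GFm n} (h : φ.IsEx) {H : Type} [Group H]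
    (x : Fin n → H) (hx : φ.Holds H x) : ∃ W : Set H, W.Countable ∧
    ∀ (L : Subgroup H) (xL : Fin n → L), (∀ i, (xL i : H) = x i) → W ⊆ L → φ.Holds L xL := by
  induction h with
  | qf h =>
    refine ⟨∅, Set.countable_empty, fun L xL hxL _ => ?_⟩
    rw [← h.map L.subtype Subtype.val_injective]
    have : (fun i => L.subtype (xL i)) = x := funext hxL
    rwa [this]
  | @ex n φ _ ih =>
    obtain ⟨y, hy⟩ := hx
    obtain ⟨W, hW, hWL⟩ := ih _ hy
    refine ⟨insert y W, hW.insert y, fun L xL hxL hL => ?_⟩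
    refine ⟨⟨y, hL (Or.inl rfl)⟩, hWL L _ (fun i => ?_) fun w hw => hL (Or.inr hw)⟩
    refine Fin.cases ?_ (fun j => ?_) i
    · rfl
    · exact hxL j

end GFm

/-- `G` is `ω`-existentially saturated: let `Φ` be a set of existential formulas in the variables
`x 0, …, x (k - 1)` with the parameters `a 0, …, a (p - 1)` from `G`; if all the formulas of `Φ` hold
for some `x` in some group containing `G`, then they all hold for some `x` in `G`. -/
def OmegaExSat (G : Type) [Group G] : Prop :=
  ∀ (k p : ℕ) (a : Fin p → G) (Φ : Set (GFm (k + p))), (∀ φ ∈ Φ, φ.IsEx) →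
    (∃ (H : Type) (_ : Group H) (c : G →* H), Function.Injective c ∧
      ∃ x : Fin k → H, ∀ φ ∈ Φ, φ.Holds H (Fin.append x fun i => c (a i))) →
    ∃ x : Fin k → G, ∀ φ ∈ Φ, φ.Holds G (Fin.append x a)

/-- `c` is an elementary embedding. -/
def IsElementary {G M : Type} [Group G] [Group M] (c : G →* M) : Prop :=
  ∀ (n : ℕ) (φ : GFm n) (x : Fin n → G), φ.Holds M (fun i => c (x i)) ↔ φ.Holds G x

/-- `G` is infinitely generic: it is an elementary subgroup of an `ω`-existentially saturated
group. -/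
def IsInfGeneric (G : Type) [Group G] : Prop :=
  ∃ (M : Type) (_ : Group M) (c : G →* M), OmegaExSat M ∧ IsElementary c

theorem append_comp {k p : ℕ} {G H : Type} (c : G → H) (x : Fin k → G) (a : Fin p → G) :
    (fun i => c (Fin.append x a i)) = Fin.append (fun i => c (x i)) fun i => c (a i) := by
  funext i
  refine Fin.addCases (fun j => ?_) (fun j => ?_) i
  · rw [Fin.append_left, Fin.append_left]
  · rw [Fin.append_right, Fin.append_right]

theorem omegaExSat_big : OmegaExSat Big := by
  rintro k p a Φ hΦ ⟨H, _, c, hc, x, hx⟩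
  have hch : ∀ φ : Φ, ∃ W : Set H, W.Countable ∧
      ∀ (L : Subgroup H) (xL : Fin (k + p) → L),
        (∀ i, (xL i : H) = Fin.append x (fun i => c (a i)) i) → W ⊆ L →
          (φ : GFm (k + p)).Holds L xL := fun φ =>
    (hΦ φ φ.2).down _ (hx φ φ.2)
  choose W hW hWL using hch
  set A : Set Big := Set.range a with hA
  have hAf : A.Finite := Set.finite_range _
  have hAc : Countable (Subgroup.closure A) := (closure_countable hAf.countable).to_subtype
  let c' : Subgroup.closure A →* H := c.comp (Subgroup.closure A).subtype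
  have hc' : Function.Injective c' := hc.comp Subtype.val_injective
  let L : Subgroup H := Subgroup.closure (Set.range c' ∪ Set.range x ∪ ⋃ φ : Φ, W φ)
  have hLc : Countable L :=
    (closure_countable (((Set.countable_range c').union (Set.countable_range x)).union
      (Set.countable_iUnion hW))).to_subtype
  let i : Subgroup.closure A →* L := c'.codRestrict L fun k =>
    Subgroup.subset_closure (Or.inl (Or.inl ⟨k, rfl⟩))
  have hi : Function.Injective i := by
    intro k k' hkk
    exact hc' (congrArg Subtype.val hkk)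
  obtain ⟨J, hJ, hJi⟩ := big_embed A hAf L i hi
  let aA : Fin p → Subgroup.closure A := fun k => ⟨a k, Subgroup.subset_closure ⟨k, rfl⟩⟩
  let xL : Fin k → L := fun k => ⟨x k, Subgroup.subset_closure (Or.inl (Or.inr ⟨k, rfl⟩))⟩
  refine ⟨fun k => J (xL k), fun φ hφ => ?_⟩
  have h1 : φ.Holds L (Fin.append xL fun k => i (aA k)) := by
    refine hWL ⟨φ, hφ⟩ L _ (fun j => ?_) ?_
    · have h2 := congrFun (append_comp (fun z : L => (z : H)) xL fun k => i (aA k)) j
      exact h2
    · intro w hw
      exact Subgroup.subset_closure (Or.inr (Set.mem_iUnion.2 ⟨⟨φ, hφ⟩, hw⟩))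
  have h2 := (hΦ φ hφ).up J hJ _ h1
  rw [append_comp] at h2
  have h3 : (fun k => J (i (aA k))) = a := by
    funext k
    rw [hJi]
  rwa [h3] at h2

open Classical in
/-- The witness operator. -/
noncomputable def TG (p : ℕ) (a : Fin p → Big) : Set Big :=
  ⋃ φ : GFm (p + 1),
    if h : ∃ y : Big, φ.Holds Big (Fin.cons y a) then {h.choose} else ∅

theorem TG_countable (p : ℕ) (a : Fin p → Big) : (TG p a).Countable := by
  refine Set.countable_iUnion fun φ => ?_
  split_ifs
  · exact Set.countable_singleton _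
  · exact Set.countable_empty

theorem isElementary_of_closed (K : Subgroup Big)
    (hK : ∀ (p : ℕ) (a : Fin p → Big), (∀ i, a i ∈ K) → TG p a ⊆ K) : IsElementary K.subtype := by
  intro n φ
  induction φ with
  | eq w => intro x; exact (GFm.IsQF.eq w).map K.subtype Subtype.val_injective x
  | neg φ ih => intro x; exact not_congr (ih x)
  | and φ ψ ih ih' => intro x; exact and_congr (ih x) (ih' x)
  | @ex n φ ih =>
    intro x
    constructor
    · intro h
      have h' : ∃ y : Big, φ.Holds Big (Fin.cons y fun i => K.subtype (x i)) := h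
      have h4 : h'.choose ∈ TG n (fun i => K.subtype (x i)) := by
        refine Set.mem_iUnion.2 ⟨φ, ?_⟩
        rw [dif_pos h']
        exact rfl
      have h5 : h'.choose ∈ K := hK n _ (fun i => (x i).2) h4
      refine ⟨⟨h'.choose, h5⟩, ?_⟩
      rw [← ih, GFm.cons_comp]
      exact h'.choose_spec
    · rintro ⟨y, hy⟩
      refine ⟨K.subtype y, ?_⟩
      rw [← ih, GFm.cons_comp] at hy
      exact hy

theorem gen_pair : ∃ (G H : Type) (_ : Group G) (_ : Group H), Countable G ∧ Countable H ∧
    IsInfGeneric G ∧ IsInfGeneric H ∧ ¬ Nonempty (G ≃* H) ∧ (LG G).ElemEq (LG H) := by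
  obtain ⟨K0, K1, h0, h1, hT0, hT1, hne, he⟩ := exists_pair TG TG_countable
  exact ⟨K0, K1, inferInstance, inferInstance, h0.to_subtype, h1.to_subtype,
    ⟨Big, inferInstance, K0.subtype, omegaExSat_big, isElementary_of_closed K0 hT0⟩,
    ⟨Big, inferInstance, K1.subtype, omegaExSat_big, isElementary_of_closed K1 hT1⟩, hne, he⟩

end Pool.Agent.H313EC
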